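import Pool.Agent.P.MP_b30443_co.CapSys

/-! A bit-set checker for the finite conditions on letter systems. -/

namespace Pool.Agent.P.MP_b30443_co.CapSet

open Finset

noncomputable section

def allN (n : ℕ) (p : ℕ → Bool) : Bool := Nat.rec true (fun i r => Bool.rec false r (p i)) n

def sumN (n : ℕ) (p : ℕ → ℕ) : ℕ := Nat.rec (nat_lit 0) (fun i r => Nat.add r (p i)) n

def prodN (n : ℕ) (p : ℕ → ℕ) : ℕ := Nat.rec (nat_lit 1) (fun i r => Nat.mul r (p i)) n

/-- evaluate `n` first, then continue -/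
def frc (n : ℕ) (k : ℕ → Bool) : Bool :=
  Nat.rec false (fun m _ => k m) (Nat.add n (nat_lit 1))

/-- field `i` of width `w` -/
def fld (T w i : ℕ) : ℕ := Nat.mod (Nat.shiftRight T (Nat.mul w i)) (Nat.pow (nat_lit 2) w)

/-- octal digit -/
def dig (w i : ℕ) : ℕ := Nat.mod (Nat.shiftRight w (Nat.mul (nat_lit 3) i)) (nat_lit 8)

def bit (A g : ℕ) : Bool :=
  Nat.beq (Nat.mod (Nat.shiftRight A g) (nat_lit 2)) (nat_lit 1)

def idx (i a b : ℕ) : ℕ := Nat.add (Nat.mul (Nat.add (Nat.mul i (nat_lit 8)) a) (nat_lit 8)) b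

/-- table of killed triples -/
def kt (T a b c : ℕ) : Bool := bit T (idx a b c)

def go (ut : ℕ → ℕ) (we wf : ℕ) (fin : ℕ → Bool) (k : ℕ) : ℕ → Bool :=
  Nat.rec fin (fun i r A => frc (idx i (dig we i) (dig wf i)) fun j =>
    Nat.rec true (fun m _ => r (Nat.succ m)) (Nat.land A (ut j))) k

def fin (e f A : ℕ) : Bool := Bool.rec false (Nat.beq A (Nat.pow (nat_lit 2) e)) (Nat.beq e f)

/-- all pairs with first entry in `[lo, lo + n)` -/
def pairs (ut mt word cls : ℕ → ℕ) (C k N lo n : ℕ) : Bool :=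
  allN n fun e0 => frc (Nat.add lo e0) fun e => frc (word e) fun we =>
    frc (Nat.mul (cls e) C) fun ce => allN N fun f =>
      frc (word f) fun wf => frc (Nat.add ce (cls f)) fun j => go ut we wf (fin e f) k (mt j)

def utOk (KT : ℕ) (ut word : ℕ → ℕ) (k N : ℕ) : Bool :=
  allN k fun i => allN (nat_lit 8) fun a => allN (nat_lit 8) fun b => frc (idx i a b) fun j =>
    allN N fun g => Bool.rec (kt KT a b (dig (word g) i)) true (bit (ut j) g)

def mtOk (must : ℕ → ℕ → ℕ → Bool) (mt cls : ℕ → ℕ) (C N : ℕ) : Bool :=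
  allN C fun a => allN C fun b => frc (Nat.add (Nat.mul a C) b) fun j =>
    allN N fun g => frc (cls g) fun c => Bool.rec true (bit (mt j) g) (must a b c)

def clsOk (cls : ℕ → ℕ) (C N : ℕ) : Bool := allN N fun g => Nat.blt (cls g) C

end

theorem allN_spec {n : ℕ} {p : ℕ → Bool} (h : allN n p = true) : ∀ i < n, p i = true := by
  induction n with
  | zero => intro i hi; omega
  | succ n ih =>
    have h' : (Bool.rec false (allN n p) (p n) : Bool) = true := h
    cases hp : p n with
    | false => rw [hp] at h'; exact absurd h' (by simp)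
    | true =>
      rw [hp] at h'
      intro i hi
      rcases Nat.lt_succ_iff_lt_or_eq.1 hi with h1 | rfl
      · exact ih h' i h1
      · exact hp

theorem sumN_eq (n : ℕ) (p : ℕ → ℕ) : sumN n p = ∑ i ∈ range n, p i := by
  induction n with
  | zero => rfl
  | succ n ih => rw [sum_range_succ, ← ih]; rfl

theorem prodN_eq (n : ℕ) (p : ℕ → ℕ) : prodN n p = ∏ i ∈ range n, p i := by
  induction n with
  | zero => rfl
  | succ n ih => rw [prod_range_succ, ← ih]; rfl

theorem frc_eq (n : ℕ) (k : ℕ → Bool) : frc n k = k n := rfl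

theorem bit_eq (A g : ℕ) : bit A g = A.testBit g := by
  have : bit A g = Nat.beq ((A >>> g) % 2) 1 := rfl
  rw [this, Nat.testBit_eq_decide_div_mod_eq, Nat.shiftRight_eq_div_pow]
  by_cases h : A / 2 ^ g % 2 = 1
  · simp [h]
  · simp only [h, decide_false]
    exact Bool.eq_false_iff.2 fun h' => h (Nat.eq_of_beq_eq_true h')

theorem dig_lt (w i : ℕ) : dig w i < 8 := Nat.mod_lt _ (by norm_num)

theorem go_spec {ut : ℕ → ℕ} {we wf : ℕ} {fin : ℕ → Bool} {g : ℕ} (k : ℕ) :
    ∀ A, go ut we wf fin k A = true → A.testBit g = true →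
      (∀ i < k, (ut (idx i (dig we i) (dig wf i))).testBit g = true) →
        ∃ A', fin A' = true ∧ A'.testBit g = true := by
  induction k with
  | zero => intro A h hA _; exact ⟨A, h, hA⟩
  | succ k ih =>
    intro A h hA hu
    have h' : (Nat.rec true (fun m _ => go ut we wf fin k (Nat.succ m))
      (A &&& ut (idx k (dig we k) (dig wf k))) : Bool) = true := h
    have hb : (A &&& ut (idx k (dig we k) (dig wf k))).testBit g = true := by
      rw [Nat.testBit_and, hA, hu k (Nat.lt_succ_self k)]; rfl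
    generalize A &&& ut (idx k (dig we k) (dig wf k)) = B at h' hb
    cases B with
    | zero => simp at hb
    | succ m => exact ih _ h' hb fun i hi => hu i (Nat.lt_succ_of_lt hi)

theorem check_spec {KT : ℕ} {must : ℕ → ℕ → ℕ → Bool} {ut mt word cls : ℕ → ℕ} {C k N : ℕ}
    (h1 : utOk KT ut word k N = true) (h2 : mtOk must mt cls C N = true)
    (h3 : clsOk cls C N = true) {lo n : ℕ} (h4 : pairs ut mt word cls C k N lo n = true) :
    ∀ e, lo ≤ e → e < lo + n → e < N → ∀ f < N, ∀ g < N, must (cls e) (cls f) (cls g) = true →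
      (e = f ∧ f = g) ∨
        ∃ i < k, kt KT (dig (word e) i) (dig (word f) i) (dig (word g) i) = true := by
  intro e hlo hhi he f hf g hg hm
  by_contra hcon
  push Not at hcon
  have a1 := allN_spec h4 (e - lo) (by omega)
  have e1 : Nat.add lo (e - lo) = e := by show lo + (e - lo) = e; omega
  simp only [frc_eq, e1] at a1
  have a2 := allN_spec a1 f hf
  have c1 : cls e < C := Nat.blt_eq.mp (allN_spec h3 e he)
  have c2 : cls f < C := Nat.blt_eq.mp (allN_spec h3 f hf)
  have a3 := allN_spec (allN_spec h2 _ c1) _ c2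
  simp only [frc_eq] at a3
  have a4 := allN_spec a3 g hg
  simp only [hm, bit_eq] at a4
  obtain ⟨A', b1, b2⟩ := go_spec (g := g) k _ a2 a4 (by
    intro i hi
    have d1 := allN_spec (allN_spec (allN_spec h1 i hi) _ (dig_lt (word e) i)) _
      (dig_lt (word f) i)
    simp only [frc_eq] at d1
    have d2 := allN_spec d1 g hg
    have d3 := hcon.2 i hi
    rw [← bit_eq]
    cases hb : bit (ut (idx i (dig (word e) i) (dig (word f) i))) g with
    | true => rfl
    | false => rw [hb] at d2; exact absurd d2 d3)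
  have b3 : (Bool.rec false (Nat.beq A' (2 ^ e)) (Nat.beq e f) : Bool) = true := b1
  cases hef : Nat.beq e f with
  | false => rw [hef] at b3; exact absurd b3 (by simp)
  | true =>
    rw [hef] at b3
    have h5 : e = f := Nat.eq_of_beq_eq_true hef
    have h6 : A' = 2 ^ e := Nat.eq_of_beq_eq_true b3
    rw [h6, Nat.testBit_two_pow] at b2
    exact hcon.1 h5 (h5 ▸ of_decide_eq_true b2)

noncomputable section

/-- the triples of classes to be killed when letters are formed as unions of words -/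
def mustU (KT' a b c : ℕ) : Bool :=
  Bool.rec (Bool.rec false (Nat.beq b c) (Nat.beq a b)) true (kt KT' a b c)

/-- the weight of a word -/
def wtW (wt : ℕ → ℕ) (k w : ℕ) : ℕ := prodN k fun i => wt (dig w i)

def wtU (wt word cls : ℕ → ℕ) (k N a : ℕ) : ℕ :=
  sumN N fun e => Bool.rec (nat_lit 0) (wtW wt k (word e)) (Nat.beq (cls e) a)

/-- everything that is checked for one lifting step -/
def liftOk (KT KT' : ℕ) (wt wt' ut mt word cls : ℕ → ℕ) (k N : ℕ) : Bool :=
  utOk KT ut word k N && mtOk (mustU KT') mt cls 8 N && clsOk cls 8 N &&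
    pairs ut mt word cls 8 k N 0 N && (allN 8 fun a => !kt KT' a a a) &&
    allN 8 fun a => Nat.ble (wt' a) (wtU wt word cls k N a)

end

theorem rec_beq (a b x : ℕ) :
    (Bool.rec (nat_lit 0) x (Nat.beq a b) : ℕ) = if a = b then x else 0 := by
  by_cases h : a = b
  · subst h; simp
  · have : Nat.beq a b = false :=
      Bool.eq_false_iff.2 fun h' => h (Nat.eq_of_beq_eq_true h')
    rw [this, if_neg h]

/-- a system with at most eight letters given by a table -/
def SysT (d KT : ℕ) (wt : ℕ → ℕ) : Prop :=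
  Sys d (fun a b c => a < 8 ∧ b < 8 ∧ c < 8 ∧ kt KT a b c = true)
    (fun a => if a < 8 then wt a else 0)

theorem SysT.words {d KT : ℕ} {wt : ℕ → ℕ} (h : SysT d KT wt) (k : ℕ) (word : ℕ → ℕ) :
    Sys (k * d)
      (fun e f g => ∃ i < k, kt KT (dig (word e) i) (dig (word f) i) (dig (word g) i) = true)
      (fun e => wtW wt k (word e)) := by
  refine (Sys.words h k fun e i => dig (word e) i).mono ?_ ?_
  · rintro a b c ⟨i, hi, h⟩
    exact ⟨i, hi, dig_lt _ _, dig_lt _ _, dig_lt _ _, h⟩
  · intro a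
    simp only [wtW, prodN_eq, dig_lt, if_true, le_refl]

theorem SysT.lift {d KT : ℕ} {wt : ℕ → ℕ} (h : SysT d KT wt) {KT' : ℕ}
    {wt' ut mt word cls : ℕ → ℕ} {k N : ℕ}
    (hc : liftOk KT KT' wt wt' ut mt word cls k N = true) : SysT (k * d) KT' wt' := by
  simp only [liftOk, Bool.and_eq_true] at hc
  obtain ⟨⟨⟨⟨⟨h1, h2⟩, h3⟩, h4⟩, h5⟩, h6⟩ := hc
  refine ((h.words k word).union N cls
    (fun a b c => a < 8 ∧ b < 8 ∧ c < 8 ∧ kt KT' a b c = true) ?_ ?_).mono (fun _ _ _ h => h) ?_
  · rintro a ⟨ha, -, -, h⟩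
    have := allN_spec h5 a ha
    simp [h] at this
  · intro e he f hf g hg hm
    refine check_spec h1 h2 h3 h4 e (Nat.zero_le _) (by omega) he f hf g hg ?_
    rcases hm with ⟨-, -, -, hm⟩ | ⟨m1, m2⟩
    · simp only [mustU, hm]
    · simp only [mustU, m1, m2, Nat.beq_refl]
      cases kt KT' (cls g) (cls g) (cls g) <;> rfl
  · intro a
    by_cases ha : a < 8
    · simp only [ha, if_true]
      have := Nat.le_of_ble_eq_true (allN_spec h6 a ha)
      simpa only [wtU, sumN_eq, rec_beq] using this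
    · simp [ha]

noncomputable section

/-- the class of an edge is `S * source + target`; `IT` is the table of invariant state triples -/
def mustA (IT S a b c : ℕ) : Bool :=
  Bool.rec (mustU IT (Nat.div a S) (Nat.div b S) (Nat.div c S)) false
    (kt IT (Nat.mod a S) (Nat.mod b S) (Nat.mod c S))

def rowSum (wt word cls v : ℕ → ℕ) (S k N s : ℕ) : ℕ :=
  sumN N fun e => Bool.rec (nat_lit 0) (Nat.mul (wtW wt k (word e)) (v (Nat.mod (cls e) S)))
    (Nat.beq (Nat.div (cls e) S) s)

/-- the small checks for an automaton -/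
def autOk (IT S : ℕ) (wt word cls v : ℕ → ℕ) (V r k N : ℕ) : Bool :=
  clsOk cls (S * S) N && (allN S fun a => !kt IT a a a) && (allN S fun s => Nat.ble (v s) V) &&
    (allN S fun s => Nat.ble (Nat.mul r (v s)) (rowSum wt word cls v S k N s)) &&
    Nat.blt 0 S && Nat.blt 0 (v 0)

end

theorem SysT.automaton {d KT : ℕ} {wt : ℕ → ℕ} (h : SysT d KT wt) {IT S : ℕ}
    {ut mt word cls v : ℕ → ℕ} {V r k N : ℕ} (hc : autOk IT S wt word cls v V r k N = true)
    (h1 : utOk KT ut word k N = true) (h2 : mtOk (mustA IT S) mt cls (S * S) N = true)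
    (h4 : ∀ e < N, ∃ lo n, lo ≤ e ∧ e < lo + n ∧
      pairs ut mt word cls (S * S) k N lo n = true) (n : ℕ) :
    ∃ A : Finset (Fin (n * (k * d)) → ZMod 3), Cap A ∧ r ^ n ≤ S * V * A.card := by
  simp only [autOk, Bool.and_eq_true] at hc
  obtain ⟨⟨⟨⟨⟨h3, h5⟩, h6⟩, h7⟩, h8⟩, h9⟩ := hc
  have hS : 0 < S := Nat.blt_eq.mp h8
  refine (h.words k word).automaton N S (fun e => cls e / S) (fun e => cls e % S)
    (fun a b c => a < S ∧ kt IT a b c = true) ?_ ?_ (fun e _ => Nat.mod_lt _ hS) v V r
    (fun s hs => Nat.le_of_ble_eq_true (allN_spec h6 s hs)) ?_ hS (Nat.blt_eq.mp h9) n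
  · rintro a ⟨ha, h⟩
    have := allN_spec h5 a ha
    simp [h] at this
  · intro e he f hf g hg hm
    by_cases hI : kt IT (cls e % S) (cls f % S) (cls g % S) = true
    · exact Or.inr (Or.inl ⟨Nat.mod_lt _ hS, hI⟩)
    obtain ⟨lo, m, l1, l2, l3⟩ := h4 e he
    rcases check_spec h1 h2 h3 l3 e l1 l2 he f hf g hg (by
      have hI' : kt IT (Nat.mod (cls e) S) (Nat.mod (cls f) S) (Nat.mod (cls g) S) = false :=
        Bool.eq_false_iff.2 hI
      simp only [mustA, hI']
      rcases hm with ⟨m1, m2⟩ | ⟨-, hm⟩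
      · have m1' : Nat.div (cls e) S = Nat.div (cls f) S := m1
        have m2' : Nat.div (cls f) S = Nat.div (cls g) S := m2
        simp only [mustU, m1', m2', Nat.beq_refl]
        cases kt IT (Nat.div (cls g) S) (Nat.div (cls g) S) (Nat.div (cls g) S) <;> rfl
      · have hm' : kt IT (Nat.div (cls e) S) (Nat.div (cls f) S) (Nat.div (cls g) S) = true := hm
        simp only [mustU, hm']) with h | h
    · exact Or.inl h
    · exact Or.inr (Or.inr h)
  · intro s hs
    have := Nat.le_of_ble_eq_true (allN_spec h7 s hs)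
    simp only [rowSum, sumN_eq, rec_beq] at this
    exact this

theorem SysT.points {KT : ℕ}
    (h : (allN 8 fun a => allN 8 fun b => allN 8 fun c =>
      !kt KT a b c || !Nat.beq ((a + b + c) % 3) 0) = true) : SysT 1 KT (fun _ => 1) := by
  refine Sys.points.mono ?_ ?_
  · rintro a b c ⟨ha, hb, hc, hk⟩ h0
    have := allN_spec (allN_spec (allN_spec h a ha) b hb) c hc
    simp [hk, h0] at this
  · intro a
    split_ifs <;> simp

end Pool.Agent.P.MP_b30443_co.CapSet
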