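import Pool.Agent.P.MP_b30443_co.CapBase

/-! The automaton and its certificate tables. -/

namespace Pool.Agent.P.MP_b30443_co.CapSet

noncomputable section

def iT : ℕ := nat_lit 0x30300000000000304050000000000030506

def dUT : ℕ := nat_lit 0xfffffffffffffffffffffffffffffffffffffffffffffffffffffffffffffffffffc0000000080882c4000000030010000044850844a441120900a02fffffffc20220b1080882c4e46e5b930010000044850844a441120900a02fffffffc0000000391b96e420220b1380982c4246a5b944a441120900a02fffffffcc00400030010000e0260b1391b96e7dfddf4e45b655320d48f0afffffffc044850801121420246a5b9f7f77d38e46e5b974a54112c904a02fffffffd129104444a44111129104445b65531d295044ffffffff1b91a46fffffffe0900a028240280a0900a0283523c2ac904a02c6e4691bffffffffffffffffffffffffffffffffffffffffffffffffffffffffffffffffffffffffffc000000004050948000000050200000020a9080940501288600a1fffffffc101425204050949529eb5a50200000020a9080940501288600a1fffffffc000000054a7ad68101425254250948121eb5a0940501288600a1fffffffd408000050200001509425254a7ad6befebdad09c2f4328a6a9a9fffffffc020a9080082a420121eb5afbfaf6b5529eb5a59605013c8e00a1fffffffc25014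0409405010250140409c2f4316581404fffffffead614a5fffffffe88600a1a218028688600a1a29aa6a7c8e00a1ab585297ffffffffffffffffffffffffffffffffffffffffffffffffffffffffffffffffffffffffffc00000000000000200c1064600800000818c08190188481300181fffffffc00000008030419388f9c6ce038419208d9c6c190188481300181fffffffe00c1064e23e71b200c1064600800000818c08190188481300181fffffffd8020000e03841918020000e23e71b1ff3ef9b1b07b8681b18d89fffffffc0818c08823671b00818c087fcfbe6f88f9c6c790988499320181fffffffc64062121901884864062121b07b869e426212fffffffc7706393fffffffc130018104c00604130018106c6362593201811dc18e4ffffffff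

def dMT : ℕ := nat_lit 0x3ff00000fc000003f000000003ffffc00fe070003f81c000fffff003f81c000fe070fc0000000f000000380000000fe07000007e3c0001f88003f81c00001f8f00007e23f000000038000000100000003f81c00001f880000001c00fe07000007e200000007003ffffc00fe070003f81c3fffff80fc3f8003f0fe000ffc001fff000070fc0001c000fe07000007e3c0001f88fc3f80000f01f8003807e03f00007003c0003c0e00008003f81c00001f880000001ff0fe00003807e000100000fc0001c00e000080040001c00fffff003f81c000fe070ffc001fff000070fc0001c3ffffffffc3f81c3f0fe070003f81c00001f8f00007e23f00007003c0003c0e00008fc3f81c00f01f8f03807e2000fe07000007e200000007fc0001c00e000080040001ff0fe07003807e200100007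

def dWT : ℕ := nat_lit 0x85b61b66926801224a0082e212866a493a6a24c092285290a01b28969491305340

def dCT : ℕ := nat_lit 0x80808080808070707060505050505050504040404040402020201000000

def du (j : ℕ) : ℕ := fld dUT (nat_lit 30) j
def dm (j : ℕ) : ℕ := fld dMT (nat_lit 30) j
def dw (j : ℕ) : ℕ := fld dWT (nat_lit 9) j
def dc (j : ℕ) : ℕ := fld dCT (nat_lit 8) j

def vv (a : ℕ) : ℕ := fld (nat_lit 0x3a352944001b167098ed62e06586881) (nat_lit 41) a

def rr : ℕ := nat_lit 0x5bf8e922f6cb4576956715788d27872cf98e3c329f537ee

end

theorem chk_aut : autOk iT 3 wt3 dw dc vv 1000000000000 rr 3 30 = true := by decide +kernel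

theorem chk_ut : utOk k3 du dw 3 30 = true := by decide +kernel

theorem chk_mt : mtOk (mustA iT 3) dm dc (3 * 3) 30 = true := by decide +kernel

theorem chk_rate : 222125 ^ 162 < rr * 100000 ^ 162 := by decide +kernel

end Pool.Agent.P.MP_b30443_co.CapSet
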