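import Pool.Agent.P.MP_b30443_co.CapData

/-! Part of the check of all pairs of edges. -/

namespace Pool.Agent.P.MP_b30443_co.CapSet

theorem chk_pairs0 : pairs du dm dw dc (3 * 3) 3 30 0 30 = true := by
  decide +kernel

end Pool.Agent.P.MP_b30443_co.CapSet
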