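import Pool.Agent.P.MP_b30443_co.Peel

/-! Letter systems of caps in `F_3^d`: words, unions, and automata. -/

namespace Pool.Agent.P.MP_b30443_co.CapSet

open Finset

/-- no solution of `x + y + z = 0` with `x ∈ A`, `y ∈ B`, `z ∈ C` -/
def NL {G : Type} [AddCommGroup G] (A B C : Finset G) : Prop :=
  ∀ x ∈ A, ∀ y ∈ B, ∀ z ∈ C, x + y + z ≠ 0

/-- only the trivial solutions of `x + y + z = 0` in `A` -/
def Cap {G : Type} [AddCommGroup G] (A : Finset G) : Prop :=
  ∀ x ∈ A, ∀ y ∈ A, ∀ z ∈ A, x + y + z = 0 → x = y ∧ y = z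

theorem three {ι : Type} (x : ι → ZMod 3) : x + x + x = 0 := by
  funext i
  have : ∀ a : ZMod 3, a + a + a = 0 := by decide
  exact this _

theorem Cap.map {G H : Type} [AddCommGroup G] [AddCommGroup H] [DecidableEq H] {A : Finset G}
    (h : Cap A) (f : G →+ H) (hf : Function.Injective f) : Cap (A.image f) := by
  intro x hx y hy z hz e
  obtain ⟨x, hx', rfl⟩ := mem_image.1 hx
  obtain ⟨y, hy', rfl⟩ := mem_image.1 hy
  obtain ⟨z, hz', rfl⟩ := mem_image.1 hz
  rw [← map_add, ← map_add, ← map_zero f] at e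
  obtain ⟨h1, h2⟩ := h x hx' y hy' z hz' (hf e)
  exact ⟨by rw [h1], by rw [h2]⟩

theorem NL.map {G H : Type} [AddCommGroup G] [AddCommGroup H] [DecidableEq H] {A B C : Finset G}
    (h : NL A B C) (f : G →+ H) (hf : Function.Injective f) :
    NL (A.image f) (B.image f) (C.image f) := by
  intro x hx y hy z hz e
  obtain ⟨x, hx', rfl⟩ := mem_image.1 hx
  obtain ⟨y, hy', rfl⟩ := mem_image.1 hy
  obtain ⟨z, hz', rfl⟩ := mem_image.1 hz
  rw [← map_add, ← map_add, ← map_zero f] at e
  exact h x hx' y hy' z hz' (hf e)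

theorem union_cap {G ι : Type} [AddCommGroup G] [DecidableEq G] (h3 : ∀ x : G, x + x + x = 0)
    (s : Finset ι) (Q : ι → Finset G) (hc : ∀ i ∈ s, Cap (Q i))
    (h : ∀ i ∈ s, ∀ j ∈ s, ∀ k ∈ s, (i = j ∧ j = k) ∨ NL (Q i) (Q j) (Q k)) :
    Cap (s.biUnion Q) ∧ (s.biUnion Q).card = ∑ i ∈ s, (Q i).card := by
  constructor
  · intro x hx y hy z hz e
    obtain ⟨i, hi, hx⟩ := mem_biUnion.1 hx
    obtain ⟨j, hj, hy⟩ := mem_biUnion.1 hy
    obtain ⟨k, hk, hz⟩ := mem_biUnion.1 hz
    rcases h i hi j hj k hk with ⟨rfl, rfl⟩ | h'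
    · exact hc i hi x hx y hy z hz e
    · exact absurd e (h' x hx y hy z hz)
  · refine card_biUnion ?_
    intro i hi j hj hne
    refine disjoint_left.2 fun x hx hx' => ?_
    rcases h i hi i hi j hj with ⟨-, h'⟩ | h'
    · exact hne h'
    · exact h' x hx x hx x hx' (h3 x)

/-- flattening of a power -/
def flat (m d : ℕ) : (Fin m → Fin d → ZMod 3) →+ (Fin (m * d) → ZMod 3) where
  toFun x j := x (finProdFinEquiv.symm j).1 (finProdFinEquiv.symm j).2
  map_zero' := rfl
  map_add' _ _ := rfl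

theorem flat_inj (m d : ℕ) : Function.Injective (flat m d) := by
  intro x y h
  funext i j
  have := congrFun h (finProdFinEquiv (i, j))
  simpa only [flat, AddMonoidHom.coe_mk, ZeroHom.coe_mk, Equiv.symm_apply_apply] using this

/-- A system of letters: caps `P a` in `F_3^d` of size at least `wt a`, with no line through
`P a`, `P b`, `P c` whenever `K a b c`. -/
def Sys (d : ℕ) (K : ℕ → ℕ → ℕ → Prop) (wt : ℕ → ℕ) : Prop :=
  ∃ P : ℕ → Finset (Fin d → ZMod 3), (∀ a, Cap (P a)) ∧
    (∀ a b c, K a b c → NL (P a) (P b) (P c)) ∧ ∀ a, wt a ≤ (P a).card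

theorem Sys.mono {d : ℕ} {K K' : ℕ → ℕ → ℕ → Prop} {wt wt' : ℕ → ℕ} (h : Sys d K wt)
    (hK : ∀ a b c, K' a b c → K a b c) (hw : ∀ a, wt' a ≤ wt a) : Sys d K' wt' := by
  obtain ⟨P, h1, h2, h3⟩ := h
  exact ⟨P, h1, fun a b c h => h2 a b c (hK a b c h), fun a => (hw a).trans (h3 a)⟩

/-- the points of `F_3` -/
theorem Sys.points : Sys 1 (fun a b c => (a + b + c) % 3 ≠ 0) (fun _ => 1) := by
  refine ⟨fun a => {fun _ => (a : ZMod 3)}, ?_, ?_, ?_⟩
  · intro a x hx y hy z hz _
    rw [mem_singleton] at hx hy hz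
    exact ⟨hx.trans hy.symm, hy.trans hz.symm⟩
  · intro a b c h x hx y hy z hz e
    rw [mem_singleton] at hx hy hz
    subst hx hy hz
    have e0 : ((a + b + c : ℕ) : ZMod 3) = 0 := by
      have := congrFun e 0
      simpa using this
    rw [ZMod.natCast_eq_zero_iff] at e0
    omega
  · intro a; simp

/-- words of length `k` -/
theorem Sys.words {d : ℕ} {K : ℕ → ℕ → ℕ → Prop} {wt : ℕ → ℕ} (h : Sys d K wt) (k : ℕ)
    (w : ℕ → ℕ → ℕ) :
    Sys (k * d) (fun e f g => ∃ i < k, K (w e i) (w f i) (w g i))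
      (fun e => ∏ i ∈ range k, wt (w e i)) := by
  classical
  obtain ⟨P, h1, h2, h3⟩ := h
  refine ⟨fun e => (Fintype.piFinset fun i : Fin k => P (w e i)).image (flat k d), ?_, ?_, ?_⟩
  · intro e
    refine Cap.map ?_ _ (flat_inj k d)
    intro x hx y hy z hz e'
    rw [Fintype.mem_piFinset] at hx hy hz
    have := fun i : Fin k => h1 _ _ (hx i) _ (hy i) _ (hz i) (congrFun e' i)
    exact ⟨funext fun i => (this i).1, funext fun i => (this i).2⟩
  · rintro e f g ⟨i, hi, hK⟩
    refine NL.map ?_ _ (flat_inj k d)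
    intro x hx y hy z hz e'
    rw [Fintype.mem_piFinset] at hx hy hz
    exact h2 _ _ _ hK _ (hx ⟨i, hi⟩) _ (hy ⟨i, hi⟩) _ (hz ⟨i, hi⟩) (congrFun e' ⟨i, hi⟩)
  · intro e
    rw [card_image_of_injective _ (flat_inj k d), Fintype.card_piFinset]
    simp only
    rw [Finset.prod_range]
    exact prod_le_prod' fun i _ => h3 _

/-- unions of letters -/
theorem Sys.union {d : ℕ} {K : ℕ → ℕ → ℕ → Prop} {wt : ℕ → ℕ} (h : Sys d K wt) (N : ℕ)
    (cls : ℕ → ℕ) (K' : ℕ → ℕ → ℕ → Prop) (hK' : ∀ a, ¬ K' a a a)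
    (H : ∀ e < N, ∀ f < N, ∀ g < N,
      (K' (cls e) (cls f) (cls g) ∨ (cls e = cls f ∧ cls f = cls g)) →
        (e = f ∧ f = g) ∨ K e f g) :
    Sys d K' (fun a => ∑ e ∈ range N, if cls e = a then wt e else 0) := by
  classical
  obtain ⟨P, h1, h2, h3⟩ := h
  have key : ∀ a, Cap (((range N).filter fun e => cls e = a).biUnion P) ∧
      (((range N).filter fun e => cls e = a).biUnion P).card
        = ∑ e ∈ (range N).filter fun e => cls e = a, (P e).card := by
    intro a
    refine union_cap three _ _ (fun i _ => h1 i) ?_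
    intro i hi j hj k hk
    rw [mem_filter, mem_range] at hi hj hk
    rcases H i hi.1 j hj.1 k hk.1 (Or.inr ⟨hi.2.trans hj.2.symm, hj.2.trans hk.2.symm⟩) with h | h
    · exact Or.inl h
    · exact Or.inr (h2 _ _ _ h)
  refine ⟨fun a => ((range N).filter fun e => cls e = a).biUnion P, fun a => (key a).1, ?_, ?_⟩
  · intro a b c hK x hx y hy z hz
    obtain ⟨i, hi, hx⟩ := mem_biUnion.1 hx
    obtain ⟨j, hj, hy⟩ := mem_biUnion.1 hy
    obtain ⟨k, hk, hz⟩ := mem_biUnion.1 hz
    rw [mem_filter, mem_range] at hi hj hk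
    rcases H i hi.1 j hj.1 k hk.1 (Or.inl (by rw [hi.2, hj.2, hk.2]; exact hK)) with h | h
    · obtain ⟨rfl, rfl⟩ := h
      rw [← hi.2, ← hj.2, ← hk.2] at hK
      exact absurd hK (hK' _)
    · exact h2 _ _ _ h x hx y hy z hz
  · intro a
    simp only
    rw [(key a).2, ← sum_filter]
    exact sum_le_sum fun i _ => h3 i

/-- prepending a coordinate -/
def consF {H : Type} [DecidableEq H] {n : ℕ} (A : Finset H) (B : Finset (Fin n → H)) :
    Finset (Fin (n + 1) → H) :=
  (A ×ˢ B).image fun p => (Fin.cons p.1 p.2 : Fin (n + 1) → H)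

theorem mem_consF {H : Type} [DecidableEq H] {n : ℕ} {A : Finset H} {B : Finset (Fin n → H)}
    {x : Fin (n + 1) → H} (h : x ∈ consF A B) : x 0 ∈ A ∧ Fin.tail x ∈ B := by
  obtain ⟨p, hp, rfl⟩ := mem_image.1 h
  simpa using hp

theorem card_consF {H : Type} [DecidableEq H] {n : ℕ} (A : Finset H) (B : Finset (Fin n → H)) :
    (consF A B).card = A.card * B.card := by
  rw [consF, card_image_of_injective, card_product]
  rintro ⟨a, b⟩ ⟨a', b'⟩ h
  have h0 := congrFun h 0
  have h1 := congrArg Fin.tail h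
  simp only [Fin.cons_zero, Fin.tail_cons] at h0 h1
  rw [h0, h1]

/-- the union of the products along all paths of length `n` from `s` to `t` -/
def paths {H : Type} [DecidableEq H] [Zero H] (P : ℕ → Finset H) (N : ℕ) (src tgt : ℕ → ℕ)
    (t : ℕ) : (n : ℕ) → ℕ → Finset (Fin n → H)
  | 0, s => if s = t then {0} else ∅
  | n + 1, s => ((range N).filter fun e => src e = s).biUnion
      fun e => consF (P e) (paths P N src tgt t n (tgt e))

theorem paths_spec {d : ℕ} (P : ℕ → Finset (Fin d → ZMod 3)) (N : ℕ) (src tgt : ℕ → ℕ)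
    (I : ℕ → ℕ → ℕ → Prop) (hI : ∀ a, ¬ I a a a) (h1 : ∀ a, Cap (P a))
    (H : ∀ e < N, ∀ f < N, ∀ g < N,
      ((src e = src f ∧ src f = src g) ∨ I (src e) (src f) (src g)) →
        (e = f ∧ f = g) ∨ I (tgt e) (tgt f) (tgt g) ∨ NL (P e) (P f) (P g)) (t n : ℕ) :
    (∀ s, Cap (paths P N src tgt t n s)) ∧
    (∀ a b c, I a b c →
      NL (paths P N src tgt t n a) (paths P N src tgt t n b) (paths P N src tgt t n c)) ∧
    ∀ s, (paths P N src tgt t (n + 1) s).card = ∑ e ∈ (range N).filter fun e => src e = s,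
      (P e).card * (paths P N src tgt t n (tgt e)).card := by
  have step : ∀ n, (∀ s, Cap (paths P N src tgt t n s)) →
      (∀ a b c, I a b c →
        NL (paths P N src tgt t n a) (paths P N src tgt t n b) (paths P N src tgt t n c)) →
      (∀ e < N, ∀ f < N, ∀ g < N,
        ((src e = src f ∧ src f = src g) ∨ I (src e) (src f) (src g)) → (e = f ∧ f = g) ∨
          NL (consF (P e) (paths P N src tgt t n (tgt e)))
            (consF (P f) (paths P N src tgt t n (tgt f)))
            (consF (P g) (paths P N src tgt t n (tgt g)))) ∧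
      ∀ s, Cap (paths P N src tgt t (n + 1) s) ∧
        (paths P N src tgt t (n + 1) s).card = ∑ e ∈ (range N).filter fun e => src e = s,
          (P e).card * (paths P N src tgt t n (tgt e)).card := by
    intro n ih1 ih2
    have k1 : ∀ e < N, ∀ f < N, ∀ g < N,
        ((src e = src f ∧ src f = src g) ∨ I (src e) (src f) (src g)) → (e = f ∧ f = g) ∨
          NL (consF (P e) (paths P N src tgt t n (tgt e)))
            (consF (P f) (paths P N src tgt t n (tgt f)))
            (consF (P g) (paths P N src tgt t n (tgt g))) := by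
      intro e he f hf g hg hs
      rcases H e he f hf g hg hs with h | h | h
      · exact Or.inl h
      · right
        intro x hx y hy z hz e'
        exact ih2 _ _ _ h _ (mem_consF hx).2 _ (mem_consF hy).2 _ (mem_consF hz).2
          (funext fun i => congrFun e' i.succ)
      · right
        intro x hx y hy z hz e'
        exact h _ (mem_consF hx).1 _ (mem_consF hy).1 _ (mem_consF hz).1 (congrFun e' 0)
    refine ⟨k1, fun s => ?_⟩
    have := union_cap (G := Fin (n + 1) → Fin d → ZMod 3)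
      (fun x => funext fun i => three (x i)) ((range N).filter fun e => src e = s)
      (fun e => consF (P e) (paths P N src tgt t n (tgt e))) ?_ ?_
    · refine ⟨this.1, ?_⟩
      rw [paths, this.2]
      exact sum_congr rfl fun e _ => card_consF _ _
    · intro e _ x hx y hy z hz e'
      have a1 := h1 e _ (mem_consF hx).1 _ (mem_consF hy).1 _ (mem_consF hz).1 (congrFun e' 0)
      have a2 := ih1 _ _ (mem_consF hx).2 _ (mem_consF hy).2 _ (mem_consF hz).2
        (funext fun i => congrFun e' i.succ)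
      constructor
      · rw [← Fin.cons_self_tail x, ← Fin.cons_self_tail y, a1.1, a2.1]
      · rw [← Fin.cons_self_tail y, ← Fin.cons_self_tail z, a1.2, a2.2]
    · intro e he f hf g hg
      rw [mem_filter, mem_range] at he hf hg
      exact k1 e he.1 f hf.1 g hg.1 (Or.inl ⟨he.2.trans hf.2.symm, hf.2.trans hg.2.symm⟩)
  have main : ∀ n, (∀ s, Cap (paths P N src tgt t n s)) ∧
      (∀ a b c, I a b c →
        NL (paths P N src tgt t n a) (paths P N src tgt t n b) (paths P N src tgt t n c)) := by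
    intro n
    induction n with
    | zero =>
      constructor
      · intro s x _ y _ z _ _
        exact ⟨Subsingleton.elim _ _, Subsingleton.elim _ _⟩
      · intro a b c h x hx y hy z hz _
        have : ∀ s (u : Fin 0 → Fin d → ZMod 3), u ∈ paths P N src tgt t 0 s → s = t := by
          intro s u hu
          by_contra hne
          simp [paths, hne] at hu
        rw [this _ _ hx, this _ _ hy, this _ _ hz] at h
        exact hI _ h
    | succ n ih =>
      obtain ⟨k1, k2⟩ := step n ih.1 ih.2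
      refine ⟨fun s => (k2 s).1, ?_⟩
      intro a b c h x hx y hy z hz
      rw [paths] at hx hy hz
      obtain ⟨e, he, hx⟩ := mem_biUnion.1 hx
      obtain ⟨f, hf, hy⟩ := mem_biUnion.1 hy
      obtain ⟨g, hg, hz⟩ := mem_biUnion.1 hz
      rw [mem_filter, mem_range] at he hf hg
      rcases k1 e he.1 f hf.1 g hg.1 (Or.inr (by rw [he.2, hf.2, hg.2]; exact h)) with h' | h'
      · obtain ⟨rfl, rfl⟩ := h'
        rw [← he.2, ← hf.2, ← hg.2] at h
        exact absurd h (hI _)
      · exact h' x hx y hy z hz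
  exact ⟨(main n).1, (main n).2, fun s => ((step n (main n).1 (main n).2).2 s).2⟩

/-- An automaton whose edges carry letters, with an invariant set `I` of state triples and a
positive vector `v` that grows by the factor `r`, gives caps of growth rate `r`. -/
theorem Sys.automaton {d : ℕ} {K : ℕ → ℕ → ℕ → Prop} {wt : ℕ → ℕ} (h : Sys d K wt) (N S : ℕ)
    (src tgt : ℕ → ℕ) (I : ℕ → ℕ → ℕ → Prop) (hI : ∀ a, ¬ I a a a)
    (H : ∀ e < N, ∀ f < N, ∀ g < N,
      ((src e = src f ∧ src f = src g) ∨ I (src e) (src f) (src g)) →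
        (e = f ∧ f = g) ∨ I (tgt e) (tgt f) (tgt g) ∨ K e f g)
    (ht : ∀ e < N, tgt e < S) (v : ℕ → ℕ) (V r : ℕ) (hV : ∀ s < S, v s ≤ V)
    (hr : ∀ s < S, r * v s ≤ ∑ e ∈ range N, if src e = s then wt e * v (tgt e) else 0)
    (hS : 0 < S) (hv : 0 < v 0) (n : ℕ) :
    ∃ A : Finset (Fin (n * d) → ZMod 3), Cap A ∧ r ^ n ≤ S * V * A.card := by
  classical
  obtain ⟨P, h1, h2, h3⟩ := h
  have spec := paths_spec P N src tgt I hI h1 (fun e he f hf g hg hs => by
    rcases H e he f hf g hg hs with h | h | h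
    · exact Or.inl h
    · exact Or.inr (Or.inl h)
    · exact Or.inr (Or.inr (h2 _ _ _ h)))
  have grow : ∀ n, ∀ s < S,
      r ^ n * v s ≤ V * ∑ t ∈ range S, (paths P N src tgt t n s).card := by
    intro n
    induction n with
    | zero =>
      intro s hs
      have : ∑ t ∈ range S, (paths P N src tgt t 0 s).card = 1 := by
        rw [sum_eq_single_of_mem s (mem_range.2 hs)]
        · simp [paths]
        · intro t _ hne
          simp [paths, hne.symm]
      rw [this]
      simpa using hV s hs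
    | succ n ih =>
      intro s hs
      calc r ^ (n + 1) * v s = r ^ n * (r * v s) := by ring
        _ ≤ r ^ n * ∑ e ∈ range N, if src e = s then wt e * v (tgt e) else 0 :=
          Nat.mul_le_mul_left _ (hr s hs)
        _ = ∑ e ∈ (range N).filter fun e => src e = s, wt e * (r ^ n * v (tgt e)) := by
          rw [← sum_filter, mul_sum]
          exact sum_congr rfl fun e _ => by ring
        _ ≤ ∑ e ∈ (range N).filter fun e => src e = s, (P e).card *
              (V * ∑ t ∈ range S, (paths P N src tgt t n (tgt e)).card) := by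
          refine sum_le_sum fun e he => Nat.mul_le_mul (h3 e) (ih _ (ht e ?_))
          exact mem_range.1 (mem_filter.1 he).1
        _ = V * ∑ t ∈ range S, (paths P N src tgt t (n + 1) s).card := by
          simp only [fun t => (spec t n).2.2 s]
          rw [sum_comm, mul_sum]
          refine sum_congr rfl fun e _ => ?_
          rw [← mul_sum]
          ring
  obtain ⟨t, -, ht'⟩ := exists_max_image (range S) (fun t => (paths P N src tgt t n 0).card)
    ⟨0, mem_range.2 hS⟩
  refine ⟨(paths P N src tgt t n 0).image (flat n d), ((spec t n).1 0).map _ (flat_inj n d), ?_⟩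
  rw [card_image_of_injective _ (flat_inj n d)]
  have a1 := sum_le_card_nsmul _ _ _ ht'
  simp only [card_range, smul_eq_mul] at a1
  calc r ^ n ≤ r ^ n * v 0 := Nat.le_mul_of_pos_right _ hv
    _ ≤ V * ∑ t ∈ range S, (paths P N src tgt t n 0).card := grow n 0 hS
    _ ≤ V * (S * (paths P N src tgt t n 0).card) := Nat.mul_le_mul_left _ a1
    _ = _ := by ring

/-- from growth along the multiples of `d` to all large dimensions -/
theorem eventually_of_growth {d r C : ℕ} (hd : 0 < d)
    (h : ∀ n, ∃ A : Finset (Fin (n * d) → ZMod 3), Cap A ∧ r ^ n ≤ C * A.card)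
    {c : ℝ} (hc : 0 < c) (hr : c ^ d < r) :
    ∃ n₀ : ℕ, ∀ n ≥ n₀, ∃ A : Finset (Fin n → ZMod 3),
      (∀ x y : Fin n → ZMod 3, y ≠ 0 → ¬ (x ∈ A ∧ x + y ∈ A ∧ x + 2 • y ∈ A)) ∧
      c ^ n ≤ A.card := by
  have hcd : 0 < c ^ d := by positivity
  have h1 : 1 < (r : ℝ) / c ^ d := (one_lt_div hcd).2 hr
  obtain ⟨m, hm⟩ := pow_unbounded_of_one_lt ((C : ℝ) + 1) h1
  have hm0 : 0 < m := by
    rcases Nat.eq_zero_or_pos m with rfl | h0
    · simp only [pow_zero] at hm
      have : (0 : ℝ) ≤ C := by positivity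
      linarith
    · exact h0
  obtain ⟨A, hA, hcard⟩ := h m
  have hP : Peel 1 A := by
    refine ⟨fun _ => 0, fun _ => one_pos, ?_⟩
    intro a ha b hb c' hc' e hne
    refine absurd (hA a ha b hb c' hc' ?_).1 hne
    calc a + b + c' = a + c' + b := by abel
      _ = b + b + b := by rw [e]
      _ = 0 := three b
  have hlt : c ^ (m * d) < A.card := by
    rw [div_pow, lt_div_iff₀ (by positivity)] at hm
    have h2 : (r : ℝ) ^ m ≤ C * A.card := by exact_mod_cast hcard
    have h3 : (0 : ℝ) ≤ A.card := by positivity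
    have h4 : 0 < (c ^ d) ^ m := by positivity
    rw [show c ^ (m * d) = (c ^ d) ^ m by rw [← pow_mul, mul_comm]]
    by_contra hle
    push Not at hle
    have h5 : (0 : ℝ) ≤ C := by positivity
    nlinarith [mul_le_mul_of_nonneg_left hle h5]
  obtain ⟨n₀, hn₀⟩ := hP.eventually (Nat.mul_pos hm0 hd) hc hlt
  refine ⟨n₀, fun n hn => ?_⟩
  obtain ⟨B, hB, hB'⟩ := hn₀ n hn
  refine ⟨B, ?_, hB'⟩
  rintro x y hy ⟨a1, a2, a3⟩
  have := hB _ a1 _ a2 _ a3 (by rw [two_smul]; abel)
  exact hy (by simpa using this)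

end Pool.Agent.P.MP_b30443_co.CapSet
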