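import Pool.Agent.P.MP_b30443_co.Step
import Pool.Agent.P.MP_b30443_co.Data

/-! The finite check of the eigenvalue inequalities. -/

namespace Pool.Agent.P.MP_b30443_co

def par : Par := ⟨403, 241, 180, fun d => (3 * d + 0) / 4, fun d => (3 * d + 380) / 4⟩

noncomputable section

def frc (n : ℕ) (k : ℕ → ℕ) : ℕ := Nat.rec (nat_lit 0) (fun m _ => k m) (Nat.add n (nat_lit 1))

def mn (a b : ℕ) : ℕ := Bool.rec b a (Nat.ble a b)

def vS (x : ℕ) : ℕ := Nat.mod (Nat.shiftRight vsT (Nat.mul (nat_lit 20) x)) (nat_lit 1048576)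

def vB (a b : ℕ) : ℕ :=
  Nat.mod (Nat.shiftRight vbT (Nat.mul (nat_lit 20) (Nat.add (Nat.mul a (nat_lit 61)) b)))
    (nat_lit 1048576)

def vH (x y : ℕ) : ℕ :=
  Bool.rec (vS (mn y (nat_lit 242)))
    (Bool.rec (vS x) (vB (Nat.div x (nat_lit 4)) (Nat.div y (nat_lit 4)))
      (Nat.ble y (nat_lit 241)))
    (Nat.ble x (nat_lit 241))

/-- `vH (x - 1) (y - 1)`, or `0` if `x = 0` or `y = 0` -/
def vP (x y : ℕ) : ℕ := Nat.rec (nat_lit 0) (fun a _ => Nat.rec (nat_lit 0) (fun b _ => vH a b) y) x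

/-- own summand depth plus one -/
def oX (L2 cx kn j : ℕ) : ℕ :=
  Bool.rec (Nat.add cx (Nat.div (Nat.mul kn j) (nat_lit 256))) (nat_lit 243)
    (Nat.ble L2 (Nat.add j (nat_lit 403)))

/-- own middle depth plus one -/
def oY (cy kn j : ℕ) : ℕ :=
  Bool.rec (nat_lit 243)
    (Nat.sub cy (Nat.div (Nat.mul kn (Nat.sub (Nat.add j j) (nat_lit 402))) (nat_lit 256)))
    (Nat.ble (nat_lit 402) (Nat.add j j))

def eX (hx nx c : ℕ) : ℕ := Nat.sub nx (Nat.mod (Nat.sub hx c) (nat_lit 403))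

def eY (hy ny i : ℕ) : ℕ := Nat.sub ny (Nat.mod (Nat.add hy i) (nat_lit 403))

def a3 (hy ny oy i a : ℕ) : ℕ :=
  Nat.add (frc (mn (eY hy ny i) oy) (vP a)) (frc (mn (eY hy ny (Nat.add i (nat_lit 1))) oy) (vP a))

def a2 (hx nx hy ny L2 cx cy kn j c : ℕ) : ℕ :=
  frc (oY cy kn j) fun oy => frc (mn (eX hx nx c) (oX L2 cx kn j)) (a3 hy ny oy (Nat.add c c))

def valA (hx nx hy ny s L2 cx cy kn j : ℕ) : ℕ :=
  frc (Nat.mod (Nat.add j s) (nat_lit 403)) (a2 hx nx hy ny L2 cx cy kn j)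

def c3 (hx nx i ox b : ℕ) : ℕ :=
  Nat.add (frc (mn (eX hx nx (Nat.div i (nat_lit 2))) ox) fun a => vP a b)
    (frc (mn (eX hx nx (Nat.div (Nat.add i (nat_lit 403)) (nat_lit 2))) ox) fun a => vP a b)

def c2 (hx nx hy ny L2 cx cy kn j i : ℕ) : ℕ :=
  frc (oX L2 cx kn j) fun ox => frc (mn (eY hy ny i) (oY cy kn j)) (c3 hx nx i ox)

def valC (hx nx hy ny s L2 cx cy kn j : ℕ) : ℕ :=
  frc (Nat.mod (Nat.add j s) (nat_lit 403)) (c2 hx nx hy ny L2 cx cy kn j)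

def b4 (b c a : ℕ) : ℕ :=
  Bool.rec (vP b c) (Bool.rec (vP a b) (nat_lit 0) (Nat.ble c (nat_lit 242)))
    (Nat.ble a (nat_lit 242))

def b3 (hx nx i c b : ℕ) : ℕ :=
  Nat.add (frc (eX hx nx (Nat.div i (nat_lit 2))) (b4 b c))
    (frc (eX hx nx (Nat.div (Nat.add i (nat_lit 403)) (nat_lit 2))) (b4 b c))

def b2 (hx nx hy ny L2 cx cy kn j i : ℕ) : ℕ :=
  frc (oY cy kn j) fun c => frc (mn (eY hy ny i) (oX L2 cx kn j)) (b3 hx nx i c)

def valB (hx nx hy ny s L2 cx cy kn j : ℕ) : ℕ :=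
  frc (Nat.mod (Nat.sub s j) (nat_lit 403)) (b2 hx nx hy ny L2 cx cy kn j)

def loop (f : ℕ → ℕ) (n : ℕ) : ℕ → ℕ :=
  Nat.rec (fun acc => acc) (fun m ih acc => frc (Nat.add acc (f m)) ih) n

def nn (x : ℕ) : ℕ := if 241 < x then 806 + 241 else par.H x + par.Lo x

def tot (x y ty s L cx kn : ℕ) : ℕ :=
  frc (par.H x + 402) fun hx => frc (nn x) fun nx =>
  frc (par.H y + 223) fun hy => frc (nn y) fun ny =>
  frc (L + L) fun L2 => frc (cx + 1) fun cx1 => frc (242 - 2 * cx) fun cy =>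
  if ty = 0 then frc (403 - s) fun s' => loop (valA hx nx hy ny s' L2 cx1 cy kn) L (nat_lit 0)
  else if ty = 1 then frc (s + 402) fun s' => loop (valB hx nx hy ny s' L2 cx1 cy kn) L (nat_lit 0)
  else frc (403 - s) fun s' => loop (valC hx nx hy ny s' L2 cx1 cy kn) L (nat_lit 0)

def tot' (x y c : ℕ) : ℕ :=
  frc (c % 4) fun ty => frc (c / 4 % 1024 % 403) fun s => frc (min (c / 4096 % 1024) 403) fun L =>
  frc (c / 4194304 % 1024) fun cx => frc (c / 4294967296) fun kn => tot x y ty s L cx kn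

def chk (x y c v : ℕ) : Bool := Nat.ble (4676412 * v) (10000 * frc x fun x => frc y fun y => tot' x y c)

def single (x : ℕ) : Bool := chk x 242 ((asT >>> (49 * x)) % 562949953421312) (vS x)

def singles (u n : ℕ) : Bool := (List.range n).all fun i => single (u + i)

def both (a b : ℕ) : Bool :=
  Nat.beq (vB a b) 0 || (Nat.blt 241 (2 * (4 * a) + 4 * b) &&
    chk (4 * a) (4 * b) ((abT >>> (49 * (a * 61 + b))) % 562949953421312) (vB a b))

def rowOk (a : ℕ) : Bool := (List.range 61).all fun b => both a b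

end

end Pool.Agent.P.MP_b30443_co
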