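import Mathlib

/-! Line-free sets from sums of norm forms of degree at most `p - 2`. -/

namespace Pool.Agent.P.MP_b30443_co

open Polynomial Finset

variable (p : ℕ) [Fact p.Prime]

theorem exists_norm_form (j : ℕ) : ∃ Q : (Fin (j + 1) → ZMod p) → ZMod p, ∀ x y, ∃ f : (ZMod p)[X],
    f.natDegree ≤ j + 1 ∧ (y ≠ 0 → f.coeff (j + 1) ≠ 0) ∧ (y = 0 → f.natDegree = 0) ∧
      ∀ t, f.eval t = Q (x + t • y) := by
  classical
  let b : Module.Basis (Fin (j + 1)) (ZMod p) (GaloisField p (j + 1)) :=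
    Module.finBasisOfFinrankEq _ _ (GaloisField.finrank p (Nat.succ_ne_zero j))
  let M : (Fin (j + 1) → ZMod p) → Matrix (Fin (j + 1)) (Fin (j + 1)) (ZMod p) := fun x =>
    Algebra.leftMulMatrix b (b.equivFun.symm x)
  refine ⟨fun x => (M x).det, fun x y => ?_⟩
  by_cases hy : y = 0
  · exact ⟨C (M x).det, by simp, fun h => absurd hy h, fun _ => by simp, fun t => by simp [hy]⟩
  refine ⟨((X : (ZMod p)[X]) • (M y).map C + (M x).map C).det, ?_, fun _ => ?_,
    fun h => absurd h hy, fun t => ?_⟩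
  · simpa using natDegree_det_X_add_C_le (M y) (M x)
  · have := coeff_det_X_add_C_card (M y) (M x)
    rw [Fintype.card_fin] at this
    rw [this, ← Algebra.norm_eq_matrix_det, Ne, Algebra.norm_eq_zero_iff]
    exact fun h => hy (b.equivFun.symm.map_eq_zero_iff.1 h)
  · rw [← coe_evalRingHom, RingHom.map_det]
    congr 1
    have : M (x + t • y) = M x + t • M y := by simp only [M, map_add, map_smul]
    rw [this]
    ext i k
    simp only [RingHom.mapMatrix_apply, Matrix.map_apply, Matrix.add_apply, Matrix.smul_apply,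
      smul_eq_mul, coe_evalRingHom, eval_add, eval_mul, eval_X, eval_C]
    ring

theorem exists_form (D : ℕ) : ∃ (n : ℕ) (P : (Fin n → ZMod p) → ZMod p), 2 * n = D * (D + 1) ∧
    ∀ x y, ∃ f : (ZMod p)[X], f.natDegree ≤ D ∧ (y ≠ 0 → 0 < f.natDegree) ∧
      ∀ t, f.eval t = P (x + t • y) := by
  induction D with
  | zero => exact ⟨0, fun _ => 0, rfl, fun x y => ⟨0, by simp, fun h => absurd (Subsingleton.elim _ _) h,
      fun t => by simp⟩⟩
  | succ D ih =>
    obtain ⟨n, P, hn, hP⟩ := ih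
    obtain ⟨Q, hQ⟩ := exists_norm_form p D
    refine ⟨n + (D + 1), fun x => P (fun i => x (Fin.castAdd _ i)) + Q (fun i => x (Fin.natAdd _ i)),
      by rw [mul_add, hn]; ring, fun x y => ?_⟩
    obtain ⟨f, f1, f2, f3⟩ := hP (fun i => x (Fin.castAdd _ i)) (fun i => y (Fin.castAdd _ i))
    obtain ⟨g, g1, g2, g3, g4⟩ := hQ (fun i => x (Fin.natAdd _ i)) (fun i => y (Fin.natAdd _ i))
    refine ⟨f + g, (natDegree_add_le _ _).trans (max_le (by omega) g1), fun hy => ?_, fun t => ?_⟩
    · by_cases h : (fun i => y (Fin.natAdd n i)) = 0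
      · have h' : (fun i => y (Fin.castAdd (D + 1) i)) ≠ 0 := by
          intro h'
          apply hy
          funext i
          refine Fin.addCases (fun i => congrFun h' i) (fun i => congrFun h i) i
        rw [natDegree_add_eq_left_of_natDegree_lt (by rw [g3 h]; exact f2 h')]
        exact f2 h'
      · have : (f + g).coeff (D + 1) ≠ 0 := by
          rw [coeff_add, coeff_eq_zero_of_natDegree_lt (by omega), zero_add]
          exact g2 h
        exact lt_of_lt_of_le (Nat.succ_pos D) (le_natDegree_of_ne_zero this)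
    · rw [eval_add, f3, g4]; rfl

theorem sum_eval_eq_zero (f : (ZMod p)[X]) (hf : f.natDegree + 2 ≤ p) : ∑ t, f.eval t = 0 := by
  simp only [eval_eq_sum_range]
  rw [sum_comm]
  refine sum_eq_zero fun i hi => ?_
  rw [← mul_sum, FiniteField.sum_pow_lt_card_sub_one _ i, mul_zero]
  rw [ZMod.card]
  have := mem_range.1 hi
  omega

theorem natDegree_eq_zero_of_const (f : (ZMod p)[X]) (hf : f.natDegree < p) (c : ZMod p)
    (h : ∀ t, f.eval t = c) : f.natDegree = 0 := by
  have : f - C c = 0 := by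
    refine eq_zero_of_natDegree_lt_card_of_eval_eq_zero _ Function.injective_id ?_ ?_
    · intro t; simp [h]
    · rw [natDegree_sub_C, ZMod.card]; exact hf
  rw [sub_eq_zero.1 this, natDegree_C]

/-- Elsholtz' nine points -/
def nine : Fin 9 → Fin 3 → ℕ :=
  ![![2, 1, 2], ![0, 0, 0], ![0, 0, 1], ![0, 1, 0], ![0, 1, 1], ![1, 0, 0], ![1, 0, 1], ![1, 1, 2],
    ![1, 2, 2]]

theorem nine_arith (n a0 a1 a2 a3 a4 a5 a6 a7 a8 : ℕ) (hn : n % 2 = 1)
    (h : a0 + a1 + a2 + a3 + a4 + a5 + a6 + a7 + a8 = n)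
    (h0 : n ∣ 2 * a0 + a5 + a6 + a7 + a8) (h1 : n ∣ a0 + a3 + a4 + a7 + 2 * a8)
    (h2 : n ∣ 2 * a0 + a2 + a4 + a6 + 2 * a7 + 2 * a8) :
    a0 = n ∨ a1 = n ∨ a2 = n ∨ a3 = n ∨ a4 = n ∨ a5 = n ∨ a6 = n ∨ a7 = n ∨ a8 = n := by
  have key : ∀ s, n ∣ s → s ≤ 2 * n → s = 0 ∨ s = n ∨ s = 2 * n := by
    rintro s ⟨k, rfl⟩ hs
    have : k ≤ 2 := Nat.le_of_mul_le_mul_left (by omega : n * k ≤ n * 2) (by omega)
    interval_cases k <;> omega
  rcases key _ h0 (by omega) with e0 | e0 | e0 <;> rcases key _ h1 (by omega) with e1 | e1 | e1 <;>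
    rcases key _ h2 (by omega) with e2 | e2 | e2 <;> omega

theorem nine_const (hp : p % 2 = 1) (g : ZMod p → Fin 9)
    (h : ∀ k, ∑ t, ((nine (g t) k : ℕ) : ZMod p) = 0) : ∃ i, ∀ t, g t = i := by
  classical
  let a : Fin 9 → ℕ := fun i => (univ.filter fun t => g t = i).card
  have hs : ∀ F : Fin 9 → ℕ, ∑ t, F (g t) = ∑ i, a i * F i := by
    intro F
    rw [← sum_fiberwise univ g]
    refine sum_congr rfl fun i _ => ?_
    rw [sum_congr rfl (g := fun _ => F i) fun t ht => by rw [(mem_filter.1 ht).2]]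
    simp [a]
  have h' : ∀ k, p ∣ ∑ i, a i * nine i k := by
    intro k
    rw [← hs (fun i => nine i k), ← ZMod.natCast_eq_zero_iff, Nat.cast_sum]
    exact h k
  have h1 := hs fun _ => 1
  have h2 := h' 0
  have h3 := h' 1
  have h4 := h' 2
  simp [Fin.sum_univ_succ, nine] at h1 h2 h3 h4
  have key : ∀ i, a i = p → ∃ i, ∀ t, g t = i := by
    intro i hi
    refine ⟨i, fun t => ?_⟩
    have : (univ.filter fun t => g t = i) = univ :=
      eq_univ_of_card _ (by rw [ZMod.card]; exact hi)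
    have h5 : t ∈ univ.filter fun t => g t = i := by rw [this]; exact mem_univ _
    exact (mem_filter.1 h5).2
  have := nine_arith p (a 0) (a 1) (a 2) (a 3) (a 4) (a 5) (a 6) (a 7) (a 8) hp (by omega)
    (by convert h2 using 1; ring) (by convert h3 using 1; ring) (by convert h4 using 1; ring)
  rcases this with h | h | h | h | h | h | h | h | h <;> exact key _ h

theorem nine_inj (hp : 3 ≤ p) : Function.Injective fun i k => ((nine i k : ℕ) : ZMod p) := by
  intro i j h
  have h1 : ∀ k, nine i k = nine j k := by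
    intro k
    have h2 := congrArg ZMod.val (congrFun h k)
    have h3 : ∀ i k, nine i k < 3 := by decide
    rwa [ZMod.val_cast_of_lt (lt_of_lt_of_le (h3 _ _) hp),
      ZMod.val_cast_of_lt (lt_of_lt_of_le (h3 _ _) hp)] at h2
  revert i j
  have : ∀ i j, (∀ k, nine i k = nine j k) → i = j := by decide
  intro i j _ h1
  exact this i j h1

theorem line_free (hp : 3 ≤ p) : ∃ n, 2 * n = (p - 1) * (p - 2) ∧
    ∃ A : Finset (Fin 3 → Fin n → ZMod p), 9 * p ^ (3 * n) ≤ A.card * p ^ 3 ∧
      ∀ x y : Fin 3 → Fin n → ZMod p, y ≠ 0 → ∃ t : ZMod p, x + t • y ∉ A := by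
  classical
  obtain ⟨n, P, hn, hP⟩ := exists_form p (p - 2)
  have hodd : p % 2 = 1 := by
    rcases (Fact.out : p.Prime).eq_two_or_odd with h | h
    · omega
    · exact h
  refine ⟨n, by rw [hn, mul_comm]; congr 1; omega, ?_⟩
  let T : Finset (Fin 3 → ZMod p) := univ.image fun i k => ((nine i k : ℕ) : ZMod p)
  have hT : T.card = 9 := by rw [card_image_of_injective _ (nine_inj p hp)]; simp
  let A : (Fin 3 → ZMod p) → Finset (Fin 3 → Fin n → ZMod p) := fun c =>
    univ.filter fun x => (fun k => P (x k)) + c ∈ T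
  have hsum : ∑ c, (A c).card = 9 * p ^ (3 * n) := by
    simp only [A, card_filter]
    rw [sum_comm]
    have : ∀ x : Fin 3 → Fin n → ZMod p,
        ∑ c, (if (fun k => P (x k)) + c ∈ T then 1 else 0) = 9 := by
      intro x
      rw [← card_filter, ← hT]
      refine card_bij (fun c _ => (fun k => P (x k)) + c) ?_ ?_ ?_
      · intro c hc; simpa using hc
      · intro a _ b _ hab; simpa using hab
      · intro s hs; exact ⟨s - (fun k => P (x k)), by simpa using hs, by simp⟩
    simp [this, ZMod.card, ← pow_mul, mul_comm]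
  obtain ⟨c, -, hc⟩ := exists_max_image univ (fun c => (A c).card) univ_nonempty
  refine ⟨A c, ?_, fun x y hy => ?_⟩
  · have := sum_le_card_nsmul univ _ _ hc
    rw [hsum] at this
    simpa [ZMod.card, mul_comm] using this
  · by_contra hcon
    push Not at hcon
    have : ∀ t : ZMod p, ∃ i, ∀ k, ((nine i k : ℕ) : ZMod p) = P (x k + t • y k) + c k := by
      intro t
      obtain ⟨i, -, hi⟩ := mem_image.1 (mem_filter.1 (hcon t)).2
      exact ⟨i, fun k => congrFun hi k⟩
    choose g hg using this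
    obtain ⟨i, hi⟩ := nine_const p hodd g fun k => by
      obtain ⟨f, f1, -, f3⟩ := hP (x k) (y k)
      simp only [hg, ← f3, sum_add_distrib, sum_eval_eq_zero p f (by omega)]
      simp [ZMod.card]
    obtain ⟨k, hk⟩ := Function.ne_iff.1 hy
    obtain ⟨f, f1, f2, f3⟩ := hP (x k) (y k)
    have := natDegree_eq_zero_of_const p f (by omega) (((nine i k : ℕ) : ZMod p) - c k) fun t => by
      rw [f3, ← hi t, hg]; ring
    exact (f2 hk).ne' this

end Pool.Agent.P.MP_b30443_co
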