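import Pool.Agent.P.MP_b30443_co.Check

namespace Pool.Agent.P.MP_b30443_co

theorem sing_0 : singles 0 64 = true := by decide +kernel

theorem sing_64 : singles 64 64 = true := by decide +kernel

theorem sing_128 : singles 128 64 = true := by decide +kernel

theorem sing_192 : singles 192 51 = true := by decide +kernel

theorem row_0 : rowOk 0 = true := by decide +kernel

theorem row_1 : rowOk 1 = true := by decide +kernel

theorem row_2 : rowOk 2 = true := by decide +kernel

theorem row_3 : rowOk 3 = true := by decide +kernel

theorem row_4 : rowOk 4 = true := by decide +kernel

theorem row_5 : rowOk 5 = true := by decide +kernel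

theorem row_6 : rowOk 6 = true := by decide +kernel

theorem row_7 : rowOk 7 = true := by decide +kernel

theorem row_8 : rowOk 8 = true := by decide +kernel

theorem row_9 : rowOk 9 = true := by decide +kernel

theorem row_10 : rowOk 10 = true := by decide +kernel

theorem row_11 : rowOk 11 = true := by decide +kernel

theorem row_12 : rowOk 12 = true := by decide +kernel

theorem row_13 : rowOk 13 = true := by decide +kernel

theorem row_14 : rowOk 14 = true := by decide +kernel

theorem row_15 : rowOk 15 = true := by decide +kernel

theorem row_16 : rowOk 16 = true := by decide +kernel

theorem row_17 : rowOk 17 = true := by decide +kernel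

theorem row_18 : rowOk 18 = true := by decide +kernel

theorem row_19 : rowOk 19 = true := by decide +kernel

theorem row_20 : rowOk 20 = true := by decide +kernel

theorem row_21 : rowOk 21 = true := by decide +kernel

theorem row_22 : rowOk 22 = true := by decide +kernel

theorem row_23 : rowOk 23 = true := by decide +kernel

end Pool.Agent.P.MP_b30443_co
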