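import Pool.Agent.P.MP_b30443_co.Check

namespace Pool.Agent.P.MP_b30443_co

theorem row_24 : rowOk 24 = true := by decide +kernel

theorem row_25 : rowOk 25 = true := by decide +kernel

theorem row_26 : rowOk 26 = true := by decide +kernel

theorem row_27 : rowOk 27 = true := by decide +kernel

theorem row_28 : rowOk 28 = true := by decide +kernel

theorem row_29 : rowOk 29 = true := by decide +kernel

theorem row_30 : rowOk 30 = true := by decide +kernel

theorem row_31 : rowOk 31 = true := by decide +kernel

theorem row_32 : rowOk 32 = true := by decide +kernel

theorem row_33 : rowOk 33 = true := by decide +kernel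

theorem row_34 : rowOk 34 = true := by decide +kernel

theorem row_35 : rowOk 35 = true := by decide +kernel

theorem row_36 : rowOk 36 = true := by decide +kernel

end Pool.Agent.P.MP_b30443_co
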