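import Pool.Agent.P.MP_b30443_co.Check

namespace Pool.Agent.P.MP_b30443_co

theorem row_37 : rowOk 37 = true := by decide +kernel

theorem row_38 : rowOk 38 = true := by decide +kernel

theorem row_39 : rowOk 39 = true := by decide +kernel

theorem row_40 : rowOk 40 = true := by decide +kernel

theorem row_41 : rowOk 41 = true := by decide +kernel

theorem row_42 : rowOk 42 = true := by decide +kernel

theorem row_43 : rowOk 43 = true := by decide +kernel

theorem row_44 : rowOk 44 = true := by decide +kernel

theorem row_45 : rowOk 45 = true := by decide +kernel

theorem row_46 : rowOk 46 = true := by decide +kernel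

theorem row_47 : rowOk 47 = true := by decide +kernel

theorem row_48 : rowOk 48 = true := by decide +kernel

end Pool.Agent.P.MP_b30443_co
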