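import Pool.Agent.P.MP_b30443_co.Check

namespace Pool.Agent.P.MP_b30443_co

theorem row_49 : rowOk 49 = true := by decide +kernel

theorem row_50 : rowOk 50 = true := by decide +kernel

theorem row_51 : rowOk 51 = true := by decide +kernel

theorem row_52 : rowOk 52 = true := by decide +kernel

theorem row_53 : rowOk 53 = true := by decide +kernel

theorem row_54 : rowOk 54 = true := by decide +kernel

theorem row_55 : rowOk 55 = true := by decide +kernel

theorem row_56 : rowOk 56 = true := by decide +kernel

theorem row_57 : rowOk 57 = true := by decide +kernel

theorem row_58 : rowOk 58 = true := by decide +kernel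

theorem row_59 : rowOk 59 = true := by decide +kernel

theorem row_60 : rowOk 60 = true := by decide +kernel

end Pool.Agent.P.MP_b30443_co
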