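import Pool.Agent.P.MP_b30443_co.Spec
import Pool.Agent.P.MP_b30443_co.Run0
import Pool.Agent.P.MP_b30443_co.Run1
import Pool.Agent.P.MP_b30443_co.Run2
import Pool.Agent.P.MP_b30443_co.Run3

namespace Pool.Agent.P.MP_b30443_co

theorem rows_ok : ∀ a < 61, rowOk a = true
  | 0, _ => row_0
  | 1, _ => row_1
  | 2, _ => row_2
  | 3, _ => row_3
  | 4, _ => row_4
  | 5, _ => row_5
  | 6, _ => row_6
  | 7, _ => row_7
  | 8, _ => row_8
  | 9, _ => row_9
  | 10, _ => row_10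
  | 11, _ => row_11
  | 12, _ => row_12
  | 13, _ => row_13
  | 14, _ => row_14
  | 15, _ => row_15
  | 16, _ => row_16
  | 17, _ => row_17
  | 18, _ => row_18
  | 19, _ => row_19
  | 20, _ => row_20
  | 21, _ => row_21
  | 22, _ => row_22
  | 23, _ => row_23
  | 24, _ => row_24
  | 25, _ => row_25
  | 26, _ => row_26
  | 27, _ => row_27
  | 28, _ => row_28
  | 29, _ => row_29
  | 30, _ => row_30
  | 31, _ => row_31
  | 32, _ => row_32
  | 33, _ => row_33
  | 34, _ => row_34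
  | 35, _ => row_35
  | 36, _ => row_36
  | 37, _ => row_37
  | 38, _ => row_38
  | 39, _ => row_39
  | 40, _ => row_40
  | 41, _ => row_41
  | 42, _ => row_42
  | 43, _ => row_43
  | 44, _ => row_44
  | 45, _ => row_45
  | 46, _ => row_46
  | 47, _ => row_47
  | 48, _ => row_48
  | 49, _ => row_49
  | 50, _ => row_50
  | 51, _ => row_51
  | 52, _ => row_52
  | 53, _ => row_53
  | 54, _ => row_54
  | 55, _ => row_55
  | 56, _ => row_56
  | 57, _ => row_57
  | 58, _ => row_58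
  | 59, _ => row_59
  | 60, _ => row_60
  | n + 61, h => absurd h (by omega)

theorem singles_ok (x : ℕ) (hx : x ≤ 242) : single x = true := by
  by_cases h0 : x < 64
  · exact singles_spec sing_0 x (by omega) (by omega)
  by_cases h64 : x < 128
  · exact singles_spec sing_64 x (by omega) (by omega)
  by_cases h128 : x < 192
  · exact singles_spec sing_128 x (by omega) (by omega)
  exact singles_spec sing_192 x (by omega) (by omega)

theorem vH_top : 524288 ≤ vH 242 242 := Nat.le_of_ble_eq_true (by decide +kernel)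

theorem exists_peel (m : ℕ) (hm : Odd m) : ∃ d B : ℕ, 0 < d ∧ ∃ T : Finset (Fin d → ZMod m),
    Peel B T ∧ (29 / 50 * m : ℝ) ^ d < T.card := by
  have hm0 : 0 < m := hm.pos
  obtain ⟨Q, hQ⟩ : Odd (m * 10001) := hm.mul (by decide)
  have hN : Odd (par.M * (m * 10001)) := Odd.mul (by decide) ⟨Q, hQ⟩
  have hM : par.M = 403 := rfl
  have hP : 24 * par.E + 3 < par.M * (m * 10001) := by
    change 24 * 241 + 3 < 403 * (m * 10001); omega
  have : NeZero m := ⟨hm0.ne'⟩
  have : NeZero (par.M * (m * 10001)) := ⟨hN.pos.ne'⟩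
  set N := par.M * (m * 10001) with hNdef
  have hN0 : (0 : ℝ) < N := by exact_mod_cast hN.pos
  obtain ⟨D, hD⟩ := pow_unbounded_of_one_lt (2 * N : ℝ) (show (1 : ℝ) < 5801 / 5800 by norm_num)
  obtain ⟨S, hS, -, hcard⟩ := has_all singles_ok rows_ok hP hN hQ D 242 242
  let g : ZMod m →+ ZMod N := ZMod.lift m ⟨zmultiplesHom _ ((par.M * 10001 : ℕ) : ZMod N), by
    rw [zmultiplesHom_apply, zsmul_eq_mul, Int.cast_natCast, ← Nat.cast_mul, ZMod.natCast_eq_zero_iff]
    exact Dvd.intro 1 (by rw [hNdef]; ring)⟩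
  have hg : Function.Injective g := by
    rw [ZMod.lift_injective]
    intro k hk
    change k • ((par.M * 10001 : ℕ) : ZMod N) = 0 at hk
    rw [zsmul_eq_mul, ← Int.cast_natCast, ← Int.cast_mul, ZMod.intCast_zmod_eq_zero_iff_dvd] at hk
    rw [ZMod.intCast_zmod_eq_zero_iff_dvd]
    have e : ((N : ℕ) : ℤ) = m * ((par.M * 10001 : ℕ) : ℤ) := by rw [hNdef]; push_cast; ring
    rw [e] at hk
    exact (mul_dvd_mul_iff_right (by rw [hM]; norm_num)).1 hk
  obtain ⟨T, hT, hTc⟩ := hS.average (g.compLeft (Fin (D + 1))) (hg.comp_left)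
  refine ⟨D + 1, _, Nat.succ_pos _, T, hT, ?_⟩
  simp only [Fintype.card_fun, ZMod.card, Fintype.card_fin] at hTc
  have h1 : (m : ℝ) ^ (D + 1) * S.card ≤ T.card * (N : ℝ) ^ (D + 1) := by exact_mod_cast hTc
  have h2 : (524288 : ℝ) ≤ vH 242 242 := by exact_mod_cast vH_top
  have h3 : (5801 / 10000 * N : ℝ) ≤ Q * (4676412 / 10000) := by
    have e1 : (N : ℝ) = 403 * (2 * Q + 1) := by rw [hNdef, hQ, hM]; push_cast; ring
    have e2 : (5000 : ℝ) ≤ Q := by exact_mod_cast (show 5000 ≤ Q by omega)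
    rw [e1]; linarith
  have h4 : (5801 / 10000 * N : ℝ) ^ D ≤ (Q * (4676412 / 10000)) ^ D :=
    pow_le_pow_left₀ (by positivity) h3 D
  have h5 : (5801 / 10000 * N : ℝ) ^ D / 2 ≤ S.card := by
    refine le_trans ?_ hcard
    have : (0 : ℝ) ≤ (5801 / 10000 * N : ℝ) ^ D := by positivity
    calc (5801 / 10000 * N : ℝ) ^ D / 2 = 524288 * ((5801 / 10000 * N : ℝ) ^ D / 1048576) := by ring
      _ ≤ _ := by gcongr
  have hmR : (0 : ℝ) < m := by exact_mod_cast hm0
  have h6 : (5801 / 10000 * N : ℝ) ^ D = (5801 / 5800) ^ D * (29 / 50) ^ D * (N : ℝ) ^ D := by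
    rw [← mul_pow, ← mul_pow]; congr 1; ring
  have h7 : (0 : ℝ) < (m : ℝ) ^ (D + 1) * ((29 / 50) ^ D * (N : ℝ) ^ D) := by positivity
  refine lt_of_mul_lt_mul_right (a := (N : ℝ) ^ (D + 1)) ?_ (by positivity)
  calc (29 / 50 * m : ℝ) ^ (D + 1) * (N : ℝ) ^ (D + 1)
      = (m : ℝ) ^ (D + 1) * ((29 / 50) ^ D * (N : ℝ) ^ D) * (29 / 50 * N) := by ring
    _ < (m : ℝ) ^ (D + 1) * ((29 / 50) ^ D * (N : ℝ) ^ D) * ((5801 / 5800) ^ D / 2) := by
        refine mul_lt_mul_of_pos_left ?_ h7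
        linarith
    _ = (m : ℝ) ^ (D + 1) * ((5801 / 10000 * N : ℝ) ^ D / 2) := by rw [h6]; ring
    _ ≤ (m : ℝ) ^ (D + 1) * S.card := by gcongr
    _ ≤ _ := h1

end Pool.Agent.P.MP_b30443_co
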