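import Mathlib

/-! Rankable sets: every nontrivial 3-term progression has an end point of larger rank than its
middle point.  Fibre lemma, averaging and powering. -/

namespace Pool.Agent.P.MP_b30443_co

open Finset

/-- `S` carries a rank function bounded by `B` such that in each nontrivial progression inside `S`
one of the end points has larger rank than the middle point. -/
def Peel {α : Type} [AddCommGroup α] (B : ℕ) (S : Finset α) : Prop :=
  ∃ ρ : α → ℕ, (∀ a, ρ a < B) ∧
    ∀ a ∈ S, ∀ b ∈ S, ∀ c ∈ S, a + c = b + b → a ≠ b → ρ b < ρ a ∨ ρ b < ρ c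

theorem Peel.empty {α : Type} [AddCommGroup α] {B : ℕ} (hB : 0 < B) : Peel B (∅ : Finset α) :=
  ⟨fun _ => 0, fun _ => hB, by simp⟩

theorem Peel.single {α : Type} [AddCommGroup α] {B : ℕ} (hB : 0 < B) (x : α) :
    Peel B ({x} : Finset α) :=
  ⟨fun _ => 0, fun _ => hB, by
    intro a ha b hb c _ _ hne
    rw [mem_singleton] at ha hb
    exact absurd (ha.trans hb.symm) hne⟩

theorem Peel.comap {α β : Type} [AddCommGroup α] [AddCommGroup β] {B : ℕ} {S : Finset β}
    (h : Peel B S) (f : α → β) (hinj : Function.Injective f)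
    (hf : ∀ a b c, a + c = b + b → f a + f c = f b + f b) (T : Finset α)
    (hT : ∀ a ∈ T, f a ∈ S) : Peel B T := by
  obtain ⟨ρ, h1, h2⟩ := h
  exact ⟨fun a => ρ (f a), fun a => h1 _, fun a ha b hb c hc e hne =>
    h2 _ (hT a ha) _ (hT b hb) _ (hT c hc) (hf a b c e) (fun h => hne (hinj h))⟩

/-- union of fibres -/
def fib {G : Type} [DecidableEq G] [Fintype G] {n : ℕ} (F : G → Finset (Fin n → G)) :
    Finset (Fin (n + 1) → G) :=
  univ.filter fun a => Fin.tail a ∈ F (a 0)

theorem card_fib {G : Type} [DecidableEq G] [Fintype G] {n : ℕ} (F : G → Finset (Fin n → G)) :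
    (fib F).card = ∑ r, (F r).card := by
  rw [← card_sigma]
  symm
  refine card_bij (fun x _ => (Fin.cons x.1 x.2 : Fin (n + 1) → G)) ?_ ?_ ?_
  · intro x hx
    simp only [mem_sigma, mem_univ, true_and] at hx
    simp [fib, hx]
  · intro x _ y _ h
    have h0 := congrFun h 0
    have h1 := congrArg Fin.tail h
    simp only [Fin.cons_zero, Fin.tail_cons] at h0 h1
    obtain ⟨x1, x2⟩ := x
    obtain ⟨y1, y2⟩ := y
    simp only at h0 h1
    subst h0; subst h1; rfl
  · intro a ha
    refine ⟨⟨a 0, Fin.tail a⟩, ?_, ?_⟩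
    · simpa [fib] using ha
    · simp

theorem Peel.fibre {G : Type} [AddCommGroup G] [DecidableEq G] [Fintype G] {n B N : ℕ}
    (F : G → Finset (Fin n → G)) (σ : G → ℕ) (hσ : ∀ r, σ r < N) (hF : ∀ r, Peel B (F r))
    (hsep : ∀ x y z : G, ∀ a ∈ F x, ∀ b ∈ F y, ∀ c ∈ F z, x + z = y + y → x ≠ y →
      a + c = b + b → σ y < σ x ∨ σ y < σ z) : Peel (N * B) (fib F) := by
  choose ρ h1 h2 using hF
  refine ⟨fun a => σ (a 0) * B + ρ (a 0) (Fin.tail a), fun a => ?_, ?_⟩
  · have := h1 (a 0) (Fin.tail a)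
    have h3 : (σ (a 0) + 1) * B ≤ N * B := Nat.mul_le_mul_right _ (hσ _)
    simp only
    nlinarith
  · intro a ha b hb c hc e hne
    simp only [fib, mem_filter, mem_univ, true_and] at ha hb hc
    have e0 : a 0 + c 0 = b 0 + b 0 := congrFun e 0
    have e1 : Fin.tail a + Fin.tail c = Fin.tail b + Fin.tail b := by
      funext i; exact congrFun e i.succ
    by_cases h0 : a 0 = b 0
    · have hc0 : c 0 = b 0 := by
        rw [h0] at e0; exact add_left_cancel e0
      have hne' : Fin.tail a ≠ Fin.tail b := by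
        intro h
        apply hne
        rw [← Fin.cons_self_tail a, ← Fin.cons_self_tail b, h, h0]
      rw [h0] at ha
      rw [hc0] at hc
      simp only [h0, hc0]
      rcases h2 (b 0) _ ha _ hb _ hc e1 hne' with h | h
      · left; omega
      · right; omega
    · have key : ∀ u : Fin (n + 1) → G, σ (b 0) < σ (u 0) →
          σ (b 0) * B + ρ (b 0) (Fin.tail b) < σ (u 0) * B + ρ (u 0) (Fin.tail u) := by
        intro u hu
        have := h1 (b 0) (Fin.tail b)
        have h3 : (σ (b 0) + 1) * B ≤ σ (u 0) * B := Nat.mul_le_mul_right _ hu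
        nlinarith
      rcases hsep _ _ _ _ ha _ hb _ hc e0 h0 e1 with h | h
      · exact Or.inl (key a h)
      · exact Or.inr (key c h)

/-- averaging over the cosets of the image of an injective homomorphism -/
theorem Peel.average {α β : Type} [AddCommGroup α] [AddCommGroup β] [Fintype α] [Fintype β]
    {B : ℕ} {S : Finset β} (h : Peel B S) (f : α →+ β) (hinj : Function.Injective f) :
    ∃ T : Finset α, Peel B T ∧ Fintype.card α * S.card ≤ T.card * Fintype.card β := by
  classical
  have hsum : ∑ θ : β, (univ.filter fun x : α => θ + f x ∈ S).card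
      = ∑ _θ : β, 0 + Fintype.card α * S.card := by
    simp only [sum_const_zero, zero_add, card_filter]
    rw [sum_comm]
    have : ∀ x : α, ∑ θ : β, (if θ + f x ∈ S then 1 else 0) = S.card := by
      intro x
      rw [← card_filter]
      refine card_bij (fun θ _ => θ + f x) ?_ ?_ ?_
      · intro θ hθ; simpa using hθ
      · intro a _ b _ hab; simpa using hab
      · intro s hs; exact ⟨s - f x, by simpa using hs, by simp⟩
    simp [this]
  obtain ⟨θ, -, hθ⟩ := exists_max_image (univ : Finset β)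
    (fun θ => (univ.filter fun x : α => θ + f x ∈ S).card) univ_nonempty
  refine ⟨univ.filter fun x : α => θ + f x ∈ S, ?_, ?_⟩
  · refine h.comap (fun x => θ + f x) (fun a b hab => hinj (by simpa using hab)) ?_ _ ?_
    · intro a b c e
      have : f a + f c = f b + f b := by rw [← map_add, ← map_add, e]
      calc θ + f a + (θ + f c) = θ + θ + (f a + f c) := by abel
        _ = θ + θ + (f b + f b) := by rw [this]
        _ = θ + f b + (θ + f b) := by abel
    · intro a ha; simpa using ha
  · have := sum_le_card_nsmul univ (fun θ => (univ.filter fun x : α => θ + f x ∈ S).card) _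
      (fun θ' h' => hθ θ' h')
    rw [hsum] at this
    simp only [sum_const_zero, zero_add, card_univ, smul_eq_mul] at this
    rw [mul_comm (card _)]
    exact this

/-- level sets in a power -/
theorem Peel.power {α : Type} [AddCommGroup α] [Fintype α] {B : ℕ} {S : Finset α} (h : Peel B S)
    (q : ℕ) : ∃ A : Finset (Fin q → α),
      (∀ a ∈ A, ∀ b ∈ A, ∀ c ∈ A, a + c = b + b → a = b) ∧
      S.card ^ q ≤ (q * 3 ^ B + 1) * A.card := by
  classical
  obtain ⟨ρ, h1, h2⟩ := h
  let W : (Fin q → α) → ℕ := fun a => ∑ i, 3 ^ ρ (a i)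
  have hW : ∀ a ∈ Fintype.piFinset (fun _ : Fin q => S), W a ∈ range (q * 3 ^ B + 1) := by
    intro a _
    rw [mem_range, Nat.lt_succ_iff]
    calc W a ≤ ∑ _i : Fin q, 3 ^ B :=
          sum_le_sum fun i _ => Nat.pow_le_pow_right (by norm_num) (h1 _).le
      _ = q * 3 ^ B := by simp
  obtain ⟨l, -, hl⟩ := exists_max_image (range (q * 3 ^ B + 1))
    (fun l => ((Fintype.piFinset (fun _ : Fin q => S)).filter fun a => W a = l).card)
    ⟨0, by simp⟩
  refine ⟨(Fintype.piFinset (fun _ : Fin q => S)).filter fun a => W a = l, ?_, ?_⟩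
  · intro a ha b hb c hc e
    simp only [mem_filter, Fintype.mem_piFinset] at ha hb hc
    by_contra hne
    have hle : ∀ i, a i ≠ b i → 3 ^ ρ (b i) + 3 ^ ρ (b i) < 3 ^ ρ (a i) + 3 ^ ρ (c i) := by
      intro i hi
      have key : ∀ u v : ℕ, ρ (b i) < u → 3 ^ ρ (b i) + 3 ^ ρ (b i) < 3 ^ u + 3 ^ v := by
        intro u v hu
        have h3 : 3 ^ (ρ (b i) + 1) ≤ 3 ^ u := Nat.pow_le_pow_right (by norm_num) hu
        have h4 : 0 < 3 ^ ρ (b i) := by positivity
        have h5 : 0 < 3 ^ v := by positivity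
        rw [pow_succ] at h3
        omega
      rcases h2 _ (ha.1 i) _ (hb.1 i) _ (hc.1 i) (congrFun e i) hi with h | h
      · exact key _ _ h
      · rw [add_comm (3 ^ ρ (a i))]; exact key _ _ h
    obtain ⟨i0, hi0⟩ := Function.ne_iff.1 hne
    have : ∑ i, (3 ^ ρ (b i) + 3 ^ ρ (b i)) < ∑ i, (3 ^ ρ (a i) + 3 ^ ρ (c i)) := by
      refine sum_lt_sum (fun i _ => ?_) ⟨i0, mem_univ _, hle i0 hi0⟩
      by_cases hi : a i = b i
      · have hc' : c i = b i := by
          have := congrFun e i
          simp only [Pi.add_apply, hi] at this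
          exact add_left_cancel this
        rw [hi, hc']
      · exact (hle i hi).le
    rw [sum_add_distrib, sum_add_distrib] at this
    have ha2 : ∑ i, 3 ^ ρ (a i) = l := ha.2
    have hb2 : ∑ i, 3 ^ ρ (b i) = l := hb.2
    have hc2 : ∑ i, 3 ^ ρ (c i) = l := hc.2
    omega
  · have h3 := card_eq_sum_card_fiberwise hW
    have h4 := sum_le_card_nsmul _ _ _ hl
    rw [← h3] at h4
    simpa using h4

/-- from a rankable set in dimension `d` to progression-free sets in all large dimensions -/
theorem Peel.eventually {G : Type} [AddCommGroup G] [Fintype G] {B d : ℕ} (hd : 0 < d)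
    {S : Finset (Fin d → G)} (h : Peel B S) {c : ℝ} (hc : 0 < c) (hS : c ^ d < S.card) :
    ∃ n₀ : ℕ, ∀ n ≥ n₀, ∃ A : Finset (Fin n → G),
      (∀ a ∈ A, ∀ b ∈ A, ∀ c ∈ A, a + c = b + b → a = b) ∧ c ^ n ≤ A.card := by
  classical
  have hcd : 0 < c ^ d := by positivity
  set t : ℝ := c ^ d / S.card with ht
  have hSpos : (0 : ℝ) < S.card := hcd.trans hS
  have ht0 : 0 < t := by positivity
  have ht1 : t < 1 := (div_lt_one hSpos).2 hS
  set K : ℝ := (max 1 c) ^ d with hK
  have hK1 : 0 < K := by positivity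
  have hlim : Filter.Tendsto (fun q : ℕ => K * (3 ^ B * ((q : ℝ) ^ 1 * t ^ q) + t ^ q))
      Filter.atTop (nhds (K * (3 ^ B * 0 + 0))) := by
    refine Filter.Tendsto.const_mul _ (Filter.Tendsto.add (Filter.Tendsto.const_mul _ ?_) ?_)
    · exact tendsto_pow_const_mul_const_pow_of_abs_lt_one 1 (by rw [abs_of_pos ht0]; exact ht1)
    · exact tendsto_pow_atTop_nhds_zero_of_lt_one ht0.le ht1
  have hev := hlim.eventually (gt_mem_nhds (show K * (3 ^ B * 0 + 0) < 1 by simp))
  obtain ⟨q₀, hq₀⟩ := Filter.eventually_atTop.1 hev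
  refine ⟨q₀ * d, fun n hn => ?_⟩
  obtain ⟨q, hqd⟩ : ∃ q, q = n / d := ⟨_, rfl⟩
  obtain ⟨A, hA, hcard⟩ := h.power q
  have hq : q₀ ≤ q := hqd ▸ (Nat.le_div_iff_mul_le hd).2 hn
  have hle : q * d ≤ n := hqd ▸ Nat.div_mul_le_self n d
  let e : Fin q × Fin d → Fin n := fun x => Fin.castLE hle (finProdFinEquiv x)
  have he : Function.Injective e := (Fin.castLE_injective hle).comp finProdFinEquiv.injective
  let g : (Fin q → Fin d → G) → (Fin n → G) := fun a => Function.extend e (fun x => a x.1 x.2) 0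
  have hg : ∀ a i j, g a (e (i, j)) = a i j := fun a i j => he.extend_apply _ _ _
  have hginj : Function.Injective g := by
    intro a b hab
    funext i j
    rw [← hg a i j, ← hg b i j, hab]
  refine ⟨A.image g, ?_, ?_⟩
  · intro a ha b hb c hc e'
    obtain ⟨a, ha', rfl⟩ := mem_image.1 ha
    obtain ⟨b, hb', rfl⟩ := mem_image.1 hb
    obtain ⟨c, hc', rfl⟩ := mem_image.1 hc
    congr 1
    refine hA a ha' b hb' c hc' ?_
    funext i j
    have := congrFun e' (e (i, j))
    simpa [hg] using this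
  · rw [card_image_of_injective _ hginj]
    have h1 := hq₀ q hq
    have h2 : (S.card : ℝ) ^ q ≤ (q * 3 ^ B + 1) * A.card := by exact_mod_cast hcard
    have h3 : c ^ n ≤ K * (c ^ d) ^ q := by
      have : n = n % d + d * q := by rw [hqd]; exact (Nat.mod_add_div n d).symm
      rw [this, pow_add, pow_mul]
      refine mul_le_mul_of_nonneg_right ?_ (by positivity)
      calc c ^ (n % d) ≤ (max 1 c) ^ (n % d) := pow_le_pow_left₀ hc.le (le_max_right _ _) _
        _ ≤ K := pow_le_pow_right₀ (le_max_left _ _) (Nat.mod_lt _ hd).le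
    have h4 : (c ^ d) ^ q = t ^ q * (S.card : ℝ) ^ q := by
      rw [← mul_pow, ht, div_mul_cancel₀ _ hSpos.ne']
    have h5 : (0 : ℝ) ≤ A.card := by positivity
    have h6 : 0 < t ^ q := by positivity
    calc c ^ n ≤ K * (t ^ q * (S.card : ℝ) ^ q) := by rw [← h4]; exact h3
      _ ≤ K * (t ^ q * ((q * 3 ^ B + 1) * A.card)) := by gcongr
      _ = K * (3 ^ B * ((q : ℝ) ^ 1 * t ^ q) + t ^ q) * A.card := by ring
      _ ≤ 1 * A.card := by gcongr
      _ = A.card := one_mul _

end Pool.Agent.P.MP_b30443_co
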