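import Pool.Agent.P.MP_b30443_co.Peel

/-! Roles: a family of constraints on the coordinates of a point such that three points whose
depths add up to at most `E` never add up to the special vector. -/

namespace Pool.Agent.P.MP_b30443_co

open Finset

structure Par where
  M : ℕ
  E : ℕ
  C : ℕ
  H : ℕ → ℕ
  Lo : ℕ → ℕ

structure Par.Ok (π : Par) : Prop where
  hH : ∀ a b c, a + b + c ≤ π.E → π.H a + π.H b + π.H c ≤ π.C
  hLo : ∀ a b c, a + b + c ≤ π.E → π.Lo a + π.Lo b + π.Lo c + π.C ≤ π.E + π.M + 1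
  hC : π.C ≤ π.M
  hM : 0 < π.M

variable (π : Par) (P : ℕ)

def kap : (D : ℕ) → Fin (D + 1) → ZMod (π.M * P)
  | 0 => 0
  | D + 1 => Fin.cons ((π.C * P : ℕ) : ZMod (π.M * P)) (kap D)

def Role : (D : ℕ) → ℕ → (Fin (D + 1) → ZMod (π.M * P)) → Prop
  | 0, d, a => π.E < d ∨ ∃ w : ℤ, (w : ZMod (π.M * P)) = a 0 ∧ -(8 * π.E + 1 : ℤ) ≤ w ∧
      w < 6 * d - 2 * π.E
  | D + 1, d, a => π.E < d ∨ ∃ e ≤ d, ∃ w t : ℕ, 0 < w ∧ w < (t + 1) * P ∧
      (w : ZMod (π.M * P)) + a 0 = ((π.H e * P : ℕ) : ZMod (π.M * P)) ∧ t < π.H e + π.Lo e ∧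
      Role D (π.H e + π.Lo e - 1 - t) (Fin.tail a)

variable {π P}

theorem Role.of_lt {D d : ℕ} (a) (h : π.E < d) : Role π P D d a := by
  cases D <;> exact Or.inl h

theorem Role.mono {D d d' : ℕ} {a} (h : Role π P D d a) (hd : d ≤ d') : Role π P D d' a := by
  cases D with
  | zero =>
    rcases h with h | ⟨w, h1, h2, h3⟩
    · exact Or.inl (by omega)
    · exact Or.inr ⟨w, h1, h2, by omega⟩
  | succ D =>
    rcases h with h | ⟨e, he, h⟩
    · exact Or.inl (by omega)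
    · exact Or.inr ⟨e, he.trans hd, h⟩

theorem Role.cross (hπ : π.Ok) (hP : 24 * π.E + 3 < π.M * P) :
    ∀ (D d₁ d₂ d₃ : ℕ) (a b c), Role π P D d₁ a → Role π P D d₂ b → Role π P D d₃ c →
      d₁ + d₂ + d₃ ≤ π.E → a + b + c ≠ kap π P D := by
  intro D
  induction D with
  | zero =>
    intro d₁ d₂ d₃ a b c ha hb hc hd e
    rcases ha with ha | ⟨u, u1, u2, u3⟩
    · omega
    rcases hb with hb | ⟨v, v1, v2, v3⟩
    · omega
    rcases hc with hc | ⟨w, w1, w2, w3⟩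
    · omega
    have e0 : a 0 + b 0 + c 0 = 0 := congrFun e 0
    have : ((-(u + v + w) : ℤ) : ZMod (π.M * P)) = 0 := by
      push_cast; rw [u1, v1, w1, e0, neg_zero]
    rw [ZMod.intCast_zmod_eq_zero_iff_dvd] at this
    have := Int.le_of_dvd (by omega) this
    omega
  | succ D ih =>
    intro d₁ d₂ d₃ a b c ha hb hc hd e
    rcases ha with ha | ⟨e₁, he₁, u, t₁, u0, u1, u2, u3, u4⟩
    · omega
    rcases hb with hb | ⟨e₂, he₂, v, t₂, v0, v1, v2, v3, v4⟩
    · omega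
    rcases hc with hc | ⟨e₃, he₃, w, t₃, w0, w1, w2, w3, w4⟩
    · omega
    have e0 : a 0 + b 0 + c 0 = ((π.C * P : ℕ) : ZMod (π.M * P)) := congrFun e 0
    have e1 : Fin.tail a + Fin.tail b + Fin.tail c = kap π P D := by
      funext i; exact congrFun e i.succ
    have h1 := hπ.hH e₁ e₂ e₃ (by omega)
    have h2 := hπ.hLo e₁ e₂ e₃ (by omega)
    obtain ⟨k, hk⟩ := Nat.exists_eq_add_of_le h1
    have : ((u + v + w + k * P : ℕ) : ZMod (π.M * P)) = 0 := by
      rw [hk] at e0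
      push_cast at u2 v2 w2 e0 ⊢
      linear_combination u2 + v2 + w2 - e0
    rw [ZMod.natCast_eq_zero_iff] at this
    have h3 := Nat.le_of_dvd (by omega) this
    have h4 : π.M * P < (t₁ + t₂ + t₃ + 3 + k) * P := by nlinarith
    have h5 : π.M < t₁ + t₂ + t₃ + 3 + k := lt_of_mul_lt_mul_right h4 (Nat.zero_le _)
    exact ih _ _ _ _ _ _ u4 v4 w4 (by omega) e1

variable (π P)

/-- the map `a ↦ κ - 2a` -/
def phi (D : ℕ) (a : Fin (D + 1) → ZMod (π.M * P)) : Fin (D + 1) → ZMod (π.M * P) :=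
  kap π P D - (a + a)

variable {π P}

theorem phi_ap {D : ℕ} (a b c : Fin (D + 1) → ZMod (π.M * P)) (h : a + c = b + b) :
    phi π P D a + phi π P D c = phi π P D b + phi π P D b := by
  unfold phi
  linear_combination (-2 : Fin (D + 1) → ZMod (π.M * P)) * h

theorem two_cancel {N : ℕ} (hN : Odd N) {x y : ZMod N} (h : x + x = y + y) : x = y := by
  obtain ⟨k, hk⟩ := hN
  have h0 : ((2 * k + 1 : ℕ) : ZMod N) = 0 := by rw [← hk]; exact ZMod.natCast_self N
  push_cast at h0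
  linear_combination (-(k : ZMod N)) * h + (x - y) * h0

theorem phi_inj (hN : Odd (π.M * P)) {D : ℕ} : Function.Injective (phi π P D) := by
  intro a b h
  funext i
  have := congrFun h i
  simp only [phi, Pi.sub_apply, Pi.add_apply, sub_right_inj] at this
  exact two_cancel hN this

theorem phi_zero {D : ℕ} (a : Fin (D + 2) → ZMod (π.M * P)) :
    phi π P (D + 1) a 0 = ((π.C * P : ℕ) : ZMod (π.M * P)) - (a 0 + a 0) := rfl

theorem phi_tail {D : ℕ} (a : Fin (D + 2) → ZMod (π.M * P)) :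
    Fin.tail (phi π P (D + 1) a) = phi π P D (Fin.tail a) := by
  funext i; rfl

theorem Role.sep (hπ : π.Ok) (hP : 24 * π.E + 3 < π.M * P) {D d₁ d₂ d₃ : ℕ} {a b c}
    (ha : Role π P D d₁ a) (hc : Role π P D d₂ c) (hb : Role π P D d₃ (phi π P D b))
    (hd : d₁ + d₂ + d₃ ≤ π.E) : a + c ≠ b + b := by
  intro e
  refine Role.cross hπ hP D _ _ _ _ _ _ ha hc hb hd ?_
  rw [e, phi]; abel

variable (π P)

/-- there is a rankable set of at least `v` points with roles of depths `x`, `y`, `z` -/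
def Has (D x y z : ℕ) (v : ℝ) : Prop :=
  ∃ S : Finset (Fin (D + 1) → ZMod (π.M * P)), Peel ((π.M * P) ^ D) S ∧
    (∀ a ∈ S, Role π P D x a ∧ Role π P D y (phi π P D a) ∧
      Role π P D z (phi π P D (phi π P D a))) ∧ v ≤ S.card

variable {π P}

theorem Has.mono {D x y z x' y' z' : ℕ} {v v' : ℝ} (h : Has π P D x y z v) (hx : x ≤ x')
    (hy : y ≤ y') (hz : z ≤ z') (hv : v' ≤ v) : Has π P D x' y' z' v' := by
  obtain ⟨S, h1, h2, h3⟩ := h
  exact ⟨S, h1, fun a ha => ⟨(h2 a ha).1.mono hx, (h2 a ha).2.1.mono hy, (h2 a ha).2.2.mono hz⟩,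
    hv.trans h3⟩

theorem Has.free {D x y z z' : ℕ} {v : ℝ} (h : Has π P D x y z v) (hz : π.E < z') :
    Has π P D x y z' v := by
  obtain ⟨S, h1, h2, h3⟩ := h
  exact ⟨S, h1, fun a ha => ⟨(h2 a ha).1, (h2 a ha).2.1, Role.of_lt _ hz⟩, h3⟩

theorem Has.free2 {D x y z y' : ℕ} {v : ℝ} (h : Has π P D x y z v) (hy : π.E < y') :
    Has π P D x y' z v := by
  obtain ⟨S, h1, h2, h3⟩ := h
  exact ⟨S, h1, fun a ha => ⟨(h2 a ha).1, Role.of_lt _ hy, (h2 a ha).2.2⟩, h3⟩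

theorem Has.free1 {D x y z x' : ℕ} {v : ℝ} (h : Has π P D x y z v) (hx : π.E < x') :
    Has π P D x' y z v := by
  obtain ⟨S, h1, h2, h3⟩ := h
  exact ⟨S, h1, fun a ha => ⟨Role.of_lt _ hx, (h2 a ha).2.1, (h2 a ha).2.2⟩, h3⟩

theorem Has.zero (hN : Odd (π.M * P)) {D x y z : ℕ} {v : ℝ} (hv : v ≤ 0) : Has π P D x y z v :=
  ⟨∅, Peel.empty (pow_pos hN.pos _), by simp, by simpa using hv⟩

theorem Has.shift (hN : Odd (π.M * P)) {D x y z w : ℕ} {v : ℝ} (h : Has π P D y z w v)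
    (hx : π.E < x) : Has π P D x y z v := by
  classical
  have : NeZero (π.M * P) := ⟨hN.pos.ne'⟩
  obtain ⟨S, h1, h2, h3⟩ := h
  refine ⟨univ.filter fun a => phi π P D a ∈ S, ?_, ?_, ?_⟩
  · exact h1.comap _ (phi_inj hN) phi_ap _ (fun a ha => by simpa using ha)
  · intro a ha
    have ha' : phi π P D a ∈ S := by simpa using ha
    exact ⟨Role.of_lt _ hx, (h2 _ ha').1, (h2 _ ha').2.1⟩
  · refine h3.trans (Nat.cast_le.2 (le_of_eq ?_))
    symm
    refine card_bij (fun a _ => phi π P D a) ?_ ?_ ?_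
    · intro a ha; simpa using ha
    · intro a _ b _ hab; exact phi_inj hN hab
    · intro s hs
      obtain ⟨a, rfl⟩ := (Finite.surjective_of_injective (phi_inj hN)) s
      exact ⟨a, by simpa using hs, rfl⟩

theorem Has.base {x y z : ℕ} (hz : π.E < z) (h : π.E < y ∨ (x ≤ π.E ∧ π.E < 2 * x + y)) :
    Has π P 0 x y z 1 := by
  classical
  refine ⟨{fun _ => ((6 * (min x π.E : ℕ) - 2 * π.E - 1 : ℤ) : ZMod (π.M * P))},
    Peel.single (by simp) _, ?_, by simp⟩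
  intro a ha
  rw [mem_singleton] at ha
  subst ha
  refine ⟨Or.inr ⟨_, rfl, by omega, by omega⟩, ?_, Role.of_lt _ hz⟩
  rcases h with h | h
  · exact Role.of_lt _ h
  · refine Or.inr ⟨-2 * (6 * (min x π.E : ℕ) - 2 * π.E - 1 : ℤ), ?_, by omega, by omega⟩
    simp only [phi, kap, Pi.sub_apply, Pi.zero_apply, Pi.add_apply]
    push_cast; ring

end Pool.Agent.P.MP_b30443_co
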