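import Pool.Agent.P.MP_b30443_co.Check

/-! Soundness of the finite check. -/

namespace Pool.Agent.P.MP_b30443_co

open Finset

theorem Has.step' {π : Par} {P Q : ℕ} (hπ : π.Ok) (hP : 24 * π.E + 3 < π.M * P)
    (hN : Odd (π.M * P)) (hQ : P = 2 * Q + 1) {D x y z : ℕ} (hz : π.E < z) (A : Act) (L : ℕ)
    (idx : ℕ → ℕ → ℕ) (g₁ g₂ : ℕ → ℕ)
    (hidx : ∀ j < L, ∀ b < 2, idx j b < 2 * π.M ∧ g₁ (idx j b) = j ∧ g₂ (idx j b) = b)
    (w : ℕ → ℕ → ℝ) (hw0 : ∀ j b, 0 ≤ w j b)
    (hw : ∀ j < L, ∀ b < 2, w j b ≤ 0 ∨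
      ∃ d₀ d₁ d₂, Fine π x y A (idx j b) d₀ d₁ d₂ ∧ Has π P D d₀ d₁ d₂ (w j b)) :
    Has π P (D + 1) x y z (Q * ∑ j ∈ range L, (w j 0 + w j 1)) := by
  classical
  let v : ℕ → ℝ := fun i =>
    if g₁ i < L ∧ g₂ i < 2 ∧ idx (g₁ i) (g₂ i) = i then w (g₁ i) (g₂ i) else 0
  refine (Has.step hπ hP hN hQ hz A v ?_).mono le_rfl le_rfl le_rfl ?_
  · intro i _
    by_cases h : g₁ i < L ∧ g₂ i < 2 ∧ idx (g₁ i) (g₂ i) = i
    · have := hw _ h.1 _ h.2.1
      rw [h.2.2] at this
      simpa only [v, h, and_self, if_true] using this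
    · left; simp only [v, h, if_false, le_refl]
  · refine mul_le_mul_of_nonneg_left ?_ (by positivity)
    have hinj : Set.InjOn (fun p : ℕ × ℕ => idx p.1 p.2) (range L ×ˢ range 2 : Finset (ℕ × ℕ)) := by
      intro a ha b hb hab
      simp only [coe_product, coe_range, Set.mem_prod, Set.mem_Iio] at ha hb
      have h1 := hidx _ ha.1 _ ha.2
      have h2 := hidx _ hb.1 _ hb.2
      simp only at hab
      exact Prod.ext (by rw [← h1.2.1, ← h2.2.1, hab]) (by rw [← h1.2.2, ← h2.2.2, hab])
    calc ∑ j ∈ range L, (w j 0 + w j 1) = ∑ p ∈ range L ×ˢ range 2, v (idx p.1 p.2) := by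
          rw [sum_product]
          refine sum_congr rfl fun j hj => ?_
          have h0 := hidx j (mem_range.1 hj) 0 (by norm_num)
          have h1 := hidx j (mem_range.1 hj) 1 (by norm_num)
          simp [sum_range_succ, v, h0.2.1, h0.2.2, h1.2.1, h1.2.2, mem_range.1 hj]
      _ = ∑ i ∈ (range L ×ˢ range 2).image (fun p : ℕ × ℕ => idx p.1 p.2), v i := by
          rw [sum_image hinj]
      _ ≤ ∑ i ∈ range (2 * π.M), v i := by
          refine sum_le_sum_of_subset_of_nonneg ?_ fun i _ _ => ?_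
          · intro i hi
            obtain ⟨p, hp, rfl⟩ := mem_image.1 hi
            rw [mem_product, mem_range, mem_range] at hp
            exact mem_range.2 (hidx _ hp.1 _ hp.2).1
          · simp only [v]; split_ifs
            · exact hw0 _ _
            · exact le_rfl

theorem frc_eq (n : ℕ) (k : ℕ → ℕ) : frc n k = k n := Eq.trans rfl rfl

theorem brec {α : Type} (a b : α) (x y : ℕ) :
    (Bool.rec a b (Nat.ble x y) : α) = if x ≤ y then b else a := by
  cases h : Nat.ble x y
  · have : ¬ x ≤ y := by rw [← Nat.ble_eq, h]; simp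
    simp [this]
  · have : x ≤ y := Nat.le_of_ble_eq_true h
    simp [this]

theorem mn_eq (a b : ℕ) : mn a b = min a b := by
  unfold mn; rw [brec]; split_ifs <;> omega

theorem loop_eq (f : ℕ → ℕ) (n acc : ℕ) : loop f n acc = acc + ∑ i ∈ range n, f i := by
  induction n generalizing acc with
  | zero => rfl
  | succ n ih =>
    have : loop f (n + 1) acc = loop f n (acc + f n) := rfl
    rw [this, ih, sum_range_succ]; ring

theorem vH_eq (x y : ℕ) : vH x y = if x ≤ 241 then (if y ≤ 241 then vB (x / 4) (y / 4) else vS x)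
    else vS (min y 242) := by
  unfold vH; rw [brec, brec, mn_eq]; rfl

theorem vP_cases (a b : ℕ) : vP a b = 0 ∨ ∃ a' b', a = a' + 1 ∧ b = b' + 1 ∧ vP a b = vH a' b' := by
  cases a with
  | zero => exact Or.inl rfl
  | succ a =>
    cases b with
    | zero => exact Or.inl rfl
    | succ b => exact Or.inr ⟨a, b, rfl, rfl, rfl⟩

theorem oX_spec {L cx kn j d : ℕ} (h : d + 1 ≤ oX (L + L) (cx + 1) kn j) (h' : j + par.M < 2 * L) :
    d ≤ cx + kn * j / 256 := by
  have e : oX (L + L) (cx + 1) kn j = if L + L ≤ j + 403 then 243 else cx + 1 + kn * j / 256 := by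
    unfold oX; rw [brec]; rfl
  change j + 403 < _ at h'
  rw [e, if_neg (by omega)] at h
  omega

theorem oY_spec {cx kn j d : ℕ} (h : d + 1 ≤ oY (242 - 2 * cx) kn j) (h' : par.M ≤ 2 * j + 1) :
    d + (2 * cx + kn * (2 * j + 1 - par.M) / 256) ≤ par.E := by
  have e : oY (242 - 2 * cx) kn j = if 402 ≤ j + j then
      242 - 2 * cx - kn * (j + j - 402) / 256 else 243 := by
    unfold oY; rw [brec]; rfl
  change 403 ≤ _ at h'
  change d + (2 * cx + kn * (2 * j + 1 - 403) / 256) ≤ 241
  rw [e, if_pos (by omega)] at h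
  have : 2 * j + 1 - 403 = j + j - 402 := by omega
  rw [this]
  omega

theorem eX_spec {x i d : ℕ} (hi : i < 2 * 403) (h : d + 1 ≤ eX (par.H x + 402) (nn x) (i / 2)) :
    par.E < x ∨ (tX par x i < par.H x + par.Lo x ∧ d ≤ par.H x + par.Lo x - 1 - tX par x i) := by
  by_cases hx : 241 < x
  · exact Or.inl hx
  · right
    have e : eX (par.H x + 402) (nn x) (i / 2)
        = par.H x + par.Lo x - (par.H x + 402 - i / 2) % 403 := by
      unfold eX nn; rw [if_neg hx]; rfl
    have e2 : tX par x i = (par.H x + 402 - i / 2) % 403 := by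
      change (par.H x + (403 - 1 - i / 2)) % 403 = _
      congr 1; omega
    rw [e] at h
    rw [e2]
    omega

theorem eY_spec {y i i' d : ℕ} (hi : i % 403 = i' % 403)
    (h : d + 1 ≤ eY (par.H y + 223) (nn y) i') :
    par.E < y ∨ (tY par y i < par.H y + par.Lo y ∧ d ≤ par.H y + par.Lo y - 1 - tY par y i) := by
  by_cases hy : 241 < y
  · exact Or.inl hy
  · right
    have e : eY (par.H y + 223) (nn y) i'
        = par.H y + par.Lo y - (par.H y + 223 + i') % 403 := by
      unfold eY nn; rw [if_neg hy]; rfl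
    have e2 : tY par y i = (par.H y + 223 + i') % 403 := by
      change (par.H y + (403 - 180) + i) % 403 = _
      omega
    rw [e] at h
    rw [e2]
    omega

theorem par_ok : par.Ok where
  hH a b c h := by simp only [par] at h ⊢; omega
  hLo a b c h := by simp only [par] at h ⊢; omega
  hC := by decide
  hM := by decide

theorem valA_eq (hx nx hy ny s L2 cx cy kn j : ℕ) : valA hx nx hy ny s L2 cx cy kn j =
    vP (mn (eX hx nx ((j + s) % 403)) (oX L2 cx kn j))
      (mn (eY hy ny ((j + s) % 403 + (j + s) % 403 + 0)) (oY cy kn j)) +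
    vP (mn (eX hx nx ((j + s) % 403)) (oX L2 cx kn j))
      (mn (eY hy ny ((j + s) % 403 + (j + s) % 403 + 1)) (oY cy kn j)) := by
  simp only [valA, a2, a3, frc_eq, Nat.add_zero]
  rfl

theorem valB_eq (hx nx hy ny s L2 cx cy kn j : ℕ) : valB hx nx hy ny s L2 cx cy kn j =
    b4 (mn (eY hy ny ((s - j) % 403)) (oX L2 cx kn j)) (oY cy kn j)
      (eX hx nx (((s - j) % 403 + 0 * 403) / 2)) +
    b4 (mn (eY hy ny ((s - j) % 403)) (oX L2 cx kn j)) (oY cy kn j)
      (eX hx nx (((s - j) % 403 + 1 * 403) / 2)) := by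
  simp only [valB, b2, b3, frc_eq, Nat.add_zero, Nat.zero_mul, Nat.one_mul]
  rfl

theorem valC_eq (hx nx hy ny s L2 cx cy kn j : ℕ) : valC hx nx hy ny s L2 cx cy kn j =
    vP (mn (eX hx nx (((j + s) % 403 + 0 * 403) / 2)) (oX L2 cx kn j))
      (mn (eY hy ny ((j + s) % 403)) (oY cy kn j)) +
    vP (mn (eX hx nx (((j + s) % 403 + 1 * 403) / 2)) (oX L2 cx kn j))
      (mn (eY hy ny ((j + s) % 403)) (oY cy kn j)) := by
  simp only [valC, c2, c3, frc_eq, Nat.add_zero, Nat.zero_mul, Nat.one_mul]
  rfl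

theorem sum_cast (f g h : ℕ → ℕ) (e : ∀ j, f j = g j + h j) (L : ℕ) (c : ℝ) :
    ((nat_lit 0 + ∑ j ∈ range L, f j : ℕ) : ℝ) * c = ∑ j ∈ range L, ((g j : ℝ) * c + (h j : ℝ) * c) := by
  rw [show nat_lit 0 + ∑ j ∈ range L, f j = ∑ j ∈ range L, f j from Nat.zero_add _]
  push_cast
  rw [sum_mul]
  exact sum_congr rfl fun j _ => by rw [e]; push_cast; ring

section

variable {P Q D : ℕ} (hP : 24 * par.E + 3 < par.M * P) (hN : Odd (par.M * P)) (hQ : P = 2 * Q + 1)
  {c : ℝ} (hc : 0 ≤ c) (ih : ∀ x y, Has par P D x y 242 (vH x y * c))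
include hP hN hQ hc ih

theorem tot_spec (x y ty s L cx kn : ℕ) (hs : s < 403) (hL : L ≤ 403) :
    Has par P (D + 1) x y 242 (Q * (tot x y ty s L cx kn * c)) := by
  have hz : par.E < 242 := by decide
  unfold tot
  simp only [frc_eq, loop_eq]
  split_ifs with h0 h1
  · subst h0
    have := Has.step' par_ok hP hN hQ (D := D) (x := x) (y := y) hz ⟨0, s, L, cx, kn⟩ L
      (fun j b => 2 * ((j + (403 - s)) % 403) + b) (fun i => (s + i / 2) % 403) (fun i => i % 2)
      (fun j hj b hb => by simp only [par]; omega)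
      (fun j b => (vP (mn (eX (par.H x + 402) (nn x) ((j + (403 - s)) % 403))
          (oX (L + L) (cx + 1) kn j))
        (mn (eY (par.H y + 223) (nn y) ((j + (403 - s)) % 403 + (j + (403 - s)) % 403 + b))
          (oY (242 - 2 * cx) kn j)) : ℕ) * c)
      (fun j b => by positivity) ?_
    · rw [sum_cast _ _ _ (fun j => valA_eq _ _ _ _ _ _ _ _ _ j)]
      exact this
    · intro j hj b hb
      have hj' : jS par ⟨0, s, L, cx, kn⟩ (2 * ((j + (403 - s)) % 403) + b) = j := by
        simp only [jS, par, if_true]; omega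
      rcases vP_cases _ _ with h | ⟨a', b', ha, hb', h⟩
      · left; rw [h]; simp
      · right
        rw [mn_eq] at ha hb'
        refine ⟨a', b', 242, ⟨by rw [hj']; exact hj, eX_spec (by omega) ?_,
          eY_spec (i' := (j + (403 - s)) % 403 + (j + (403 - s)) % 403 + b) (by omega) (by omega),
          ?_, ?_⟩, h ▸ ih a' b'⟩
        · have : (2 * ((j + (403 - s)) % 403) + b) / 2 = (j + (403 - s)) % 403 := by omega
          rw [this]; omega
        · rw [hj']; exact oX_spec (by simp only [zero_ne_one, if_false]; omega)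
        · rw [hj']; exact oY_spec (by simp only [zero_ne_one, if_false]; omega)
  · subst h1
    have := Has.step' par_ok hP hN hQ (D := D) (x := x) (y := y) hz ⟨1, s, L, cx, kn⟩ L
      (fun j b => (s + 402 - j) % 403 + b * 403) (fun i => (s + (805 - i)) % 403) (fun i => i / 403)
      (fun j hj b hb => by simp only [par]; omega)
      (fun j b => (b4 (mn (eY (par.H y + 223) (nn y) ((s + 402 - j) % 403))
          (oX (L + L) (cx + 1) kn j)) (oY (242 - 2 * cx) kn j)
        (eX (par.H x + 402) (nn x) (((s + 402 - j) % 403 + b * 403) / 2)) : ℕ) * c)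
      (fun j b => by positivity) ?_
    · rw [sum_cast _ _ _ (fun j => valB_eq _ _ _ _ _ _ _ _ _ j)]
      exact this
    · intro j hj b hb
      have hj' : jS par ⟨1, s, L, cx, kn⟩ ((s + 402 - j) % 403 + b * 403) = j := by
        simp only [jS, par, if_true, one_ne_zero, if_false]; omega
      generalize he : eX (par.H x + 402) (nn x) (((s + 402 - j) % 403 + b * 403) / 2) = e₀
      generalize hf : oY (242 - 2 * cx) kn j = e₂
      generalize hg : mn (eY (par.H y + 223) (nn y) ((s + 402 - j) % 403))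
          (oX (L + L) (cx + 1) kn j) = e₁
      rw [mn_eq] at hg
      have key : ∀ d₀ d₁ d₂, d₀ + 1 ≤ e₀ → d₁ + 1 ≤ e₁ → d₂ + 1 ≤ e₂ →
          Fine par x y ⟨1, s, L, cx, kn⟩ ((s + 402 - j) % 403 + b * 403) d₀ d₁ d₂ := by
        intro d₀ d₁ d₂ h₀ h₁ h₂
        refine ⟨by rw [hj']; exact hj, eX_spec (by omega) (by omega),
          eY_spec (i' := (s + 402 - j) % 403) (by omega) (by omega), ?_, ?_⟩
        · rw [hj']; exact oX_spec (by simp only [if_true]; omega)
        · rw [hj']; exact oY_spec (by simp only [if_true]; omega)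
      have e : b4 e₁ e₂ e₀ = if e₀ ≤ 242 then (if e₂ ≤ 242 then 0 else vP e₀ e₁) else vP e₁ e₂ := by
        unfold b4; rw [brec, brec]
      rw [e]
      split_ifs with g1 g2
      · left; simp
      · rcases vP_cases e₀ e₁ with h | ⟨a', b', ha, hb', h⟩
        · left; rw [h]; simp
        · right
          exact ⟨a', b', 242, key _ _ _ (by omega) (by omega) (by omega), h ▸ ih a' b'⟩
      · rcases vP_cases e₁ e₂ with h | ⟨a', b', ha, hb', h⟩
        · left; rw [h]; simp
        · right
          exact ⟨242, a', b', key _ _ _ (by omega) (by omega) (by omega),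
            h ▸ (ih a' b').shift hN hz⟩
  · have := Has.step' par_ok hP hN hQ (D := D) (x := x) (y := y) hz ⟨ty, s, L, cx, kn⟩ L
      (fun j b => (j + (403 - s)) % 403 + b * 403) (fun i => (s + i) % 403) (fun i => i / 403)
      (fun j hj b hb => by simp only [par]; omega)
      (fun j b => (vP (mn (eX (par.H x + 402) (nn x) (((j + (403 - s)) % 403 + b * 403) / 2))
          (oX (L + L) (cx + 1) kn j))
        (mn (eY (par.H y + 223) (nn y) ((j + (403 - s)) % 403))
          (oY (242 - 2 * cx) kn j)) : ℕ) * c)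
      (fun j b => by positivity) ?_
    · rw [sum_cast _ _ _ (fun j => valC_eq _ _ _ _ _ _ _ _ _ j)]
      exact this
    · intro j hj b hb
      have hj' : jS par ⟨ty, s, L, cx, kn⟩ ((j + (403 - s)) % 403 + b * 403) = j := by
        simp only [jS, par, h0, h1, if_false]; omega
      rcases vP_cases _ _ with h | ⟨a', b', ha, hb', h⟩
      · left; rw [h]; simp
      · right
        rw [mn_eq] at ha hb'
        refine ⟨a', b', 242, ⟨by rw [hj']; exact hj, eX_spec (by omega) (by omega),
          eY_spec (i' := (j + (403 - s)) % 403) (by omega) (by omega), ?_, ?_⟩, h ▸ ih a' b'⟩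
        · rw [hj']; exact oX_spec (by simp only [h1, if_false]; omega)
        · rw [hj']; exact oY_spec (by simp only [h1, if_false]; omega)

theorem chk_spec {x y a v : ℕ} (h : chk x y a v = true) :
    Has par P (D + 1) x y 242 (v * (c * (Q * (4676412 / 10000)))) := by
  have e1 : tot' x y a = tot x y (a % 4) (a / 4 % 1024 % 403) (min (a / 4096 % 1024) 403)
      (a / 4194304 % 1024) (a / 4294967296) := by
    unfold tot'; simp only [frc_eq]
  have e2 : (frc x fun x => frc y fun y => tot' x y a) = tot' x y a := by simp only [frc_eq]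
  unfold chk at h
  rw [e2, e1, Nat.ble_eq] at h
  refine (tot_spec hP hN hQ hc ih x y (a % 4) (a / 4 % 1024 % 403) (min (a / 4096 % 1024) 403)
    (a / 4194304 % 1024) (a / 4294967296) (Nat.mod_lt _ (by norm_num)) (min_le_right _ _)).mono
    le_rfl le_rfl le_rfl ?_
  generalize tot x y _ _ _ _ _ = T at h
  have h2 : (4676412 : ℝ) * v ≤ 10000 * T := by exact_mod_cast h
  have h3 : (0 : ℝ) ≤ Q * c := by positivity
  nlinarith

end

theorem singles_spec {u n : ℕ} (h : singles u n = true) (x : ℕ) (h1 : u ≤ x) (h2 : x < u + n) :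
    single x = true := by
  unfold singles at h
  rw [List.all_eq_true] at h
  have := h (x - u) (List.mem_range.2 (by omega))
  rwa [Nat.add_sub_cancel' h1] at this

theorem has_all (hs : ∀ x ≤ 242, single x = true) (hb : ∀ a < 61, rowOk a = true) {P Q : ℕ}
    (hP : 24 * par.E + 3 < par.M * P) (hN : Odd (par.M * P)) (hQ : P = 2 * Q + 1) (D : ℕ) :
    ∀ x y, Has par P D x y 242 (vH x y * ((Q * (4676412 / 10000)) ^ D / 1048576)) := by
  have hz : par.E < 242 := by decide
  have hb' : ∀ a < 61, ∀ b < 61, vB a b = 0 ∨ (241 < 2 * (4 * a) + 4 * b ∧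
      chk (4 * a) (4 * b) ((abT >>> (49 * (a * 61 + b))) % 562949953421312) (vB a b) = true) := by
    intro a ha b hb2
    have := hb a ha
    unfold rowOk at this
    rw [List.all_eq_true] at this
    have := this b (List.mem_range.2 hb2)
    unfold both at this
    simpa only [Bool.or_eq_true, Bool.and_eq_true, Nat.beq_eq, Nat.blt_eq] using this
  induction D with
  | zero =>
    intro x y
    have hle : ∀ n : ℕ, n < 1048576 →
        (n : ℝ) * ((Q * (4676412 / 10000)) ^ 0 / 1048576) ≤ 1 := by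
      intro n hn
      have : (n : ℝ) ≤ 1048576 := by exact_mod_cast hn.le
      rw [pow_zero]; linarith
    have hS : ∀ x, vS x < 1048576 := fun x => Nat.mod_lt _ (by norm_num)
    have hB : ∀ a b, vB a b < 1048576 := fun a b => Nat.mod_lt _ (by norm_num)
    rw [vH_eq]
    split_ifs with h1 h2
    · rcases hb' (x / 4) (by omega) (y / 4) (by omega) with h | ⟨h, -⟩
      · exact Has.zero hN (by rw [h]; simp)
      · exact (Has.base hz (Or.inr ⟨h1, by change 241 < _; omega⟩)).mono le_rfl le_rfl le_rfl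
          (hle _ (hB _ _))
    · exact (Has.base hz (Or.inl (by change 241 < _; omega))).mono le_rfl le_rfl le_rfl
        (hle _ (hS _))
    · exact ((Has.base (x := y) (y := 242) hz (Or.inl hz)).shift hN
        (by change 241 < _; omega)).mono le_rfl le_rfl le_rfl (hle _ (hS _))
  | succ D ih =>
    have hc : (0 : ℝ) ≤ (Q * (4676412 / 10000)) ^ D / 1048576 := by positivity
    have e : ((Q : ℝ) * (4676412 / 10000)) ^ (D + 1) / 1048576
        = (Q * (4676412 / 10000)) ^ D / 1048576 * (Q * (4676412 / 10000)) := by ring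
    intro x y
    rw [vH_eq, e]
    split_ifs with h1 h2
    · rcases hb' (x / 4) (by omega) (y / 4) (by omega) with h | ⟨-, h⟩
      · exact Has.zero hN (by rw [h]; simp)
      · exact (chk_spec hP hN hQ hc ih h).mono (by omega) (by omega) le_rfl le_rfl
    · exact (chk_spec hP hN hQ hc ih (hs x (by omega))).free2 (by change 241 < _; omega)
    · exact ((chk_spec hP hN hQ hc ih (hs (min y 242) (min_le_right _ _))).mono (min_le_left _ _)
        le_rfl le_rfl le_rfl).shift hN (by change 241 < _; omega)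

end Pool.Agent.P.MP_b30443_co
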