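import Pool.Agent.P.MP_b30443_co.Role

/-! The inductive step: adding one coordinate. -/

namespace Pool.Agent.P.MP_b30443_co

open Finset

structure Act where
  ty : ℕ
  s : ℕ
  L : ℕ
  cx : ℕ
  kn : ℕ

def jS (π : Par) (A : Act) (i : ℕ) : ℕ :=
  if A.ty = 0 then (A.s + i / 2) % π.M
  else if A.ty = 1 then (A.s + (2 * π.M - 1 - i)) % π.M else (A.s + i) % π.M

def tX (π : Par) (x i : ℕ) : ℕ := (π.H x + (π.M - 1 - i / 2)) % π.M

def tY (π : Par) (y i : ℕ) : ℕ := (π.H y + (π.M - π.C) + i) % π.M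

structure Fine (π : Par) (x y : ℕ) (A : Act) (i d₀ d₁ d₂ : ℕ) : Prop where
  hj : jS π A i < A.L
  hx : π.E < x ∨ (tX π x i < π.H x + π.Lo x ∧ d₀ ≤ π.H x + π.Lo x - 1 - tX π x i)
  hy : π.E < y ∨ (tY π y i < π.H y + π.Lo y ∧ d₁ ≤ π.H y + π.Lo y - 1 - tY π y i)
  ho : jS π A i + π.M < 2 * A.L → (if A.ty = 1 then d₁ else d₀) ≤ A.cx + A.kn * jS π A i / 256
  hm : π.M ≤ 2 * jS π A i + 1 →
    (if A.ty = 1 then d₂ else d₁) + (2 * A.cx + A.kn * (2 * jS π A i + 1 - π.M) / 256) ≤ π.E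

theorem cast_mod_mul (M P a : ℕ) : ((a % M * P : ℕ) : ZMod (M * P)) = ((a * P : ℕ) : ZMod (M * P)) := by
  rw [ZMod.natCast_eq_natCast_iff']
  rw [← Nat.mul_mod_mul_right, Nat.mod_mod]

theorem cell {M P : ℕ} (hP : Odd P) {r : ℕ} (hr : r < M * P) (hnd : ¬ P ∣ r) :
    2 * r / P < 2 * M ∧ ∃ ρ₁ ρ₂ : ℕ, 0 < ρ₁ ∧ ρ₁ < P ∧ 0 < ρ₂ ∧ ρ₂ < P ∧
      r = 2 * r / P / 2 * P + ρ₁ ∧ 2 * r = 2 * r / P * P + ρ₂ := by
  have hP0 : 0 < P := hP.pos
  refine ⟨?_, r % P, 2 * r % P, ?_, Nat.mod_lt _ hP0, ?_, Nat.mod_lt _ hP0, ?_, ?_⟩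
  · rw [Nat.div_lt_iff_lt_mul hP0]; nlinarith
  · exact Nat.pos_of_ne_zero fun h => hnd (Nat.dvd_of_mod_eq_zero h)
  · refine Nat.pos_of_ne_zero fun h => hnd ?_
    exact (Nat.Coprime.dvd_mul_left (Nat.coprime_two_right.2 hP)).1 (Nat.dvd_of_mod_eq_zero h)
  · rw [Nat.div_div_eq_div_mul, mul_comm P 2, Nat.mul_div_mul_left _ _ (by norm_num)]
    exact (Nat.div_add_mod' r P).symm
  · exact (Nat.div_add_mod' _ P).symm

def mu (N : ℕ) (A : Act) (r : ZMod N) : ZMod N :=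
  if A.ty = 0 then r else if A.ty = 1 then -(r + r) else r + r

theorem mu_inj {N : ℕ} (hN : Odd N) (A : Act) {x y : ZMod N} (h : mu N A x = mu N A y) : x = y := by
  unfold mu at h
  split_ifs at h
  · exact h
  · exact two_cancel hN (neg_injective h)
  · exact two_cancel hN h

theorem mu_ap {N : ℕ} (A : Act) {x y z : ZMod N} (h : x + z = y + y) :
    mu N A x + mu N A z = mu N A y + mu N A y := by
  unfold mu
  split_ifs
  · exact h
  · linear_combination (-2 : ZMod N) * h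
  · linear_combination (2 : ZMod N) * h

theorem sigma_cell {π : Par} {P : ℕ} [NeZero (π.M * P)] (hP : Odd P) (hM : 0 < π.M) (A : Act)
    (r : ZMod (π.M * P)) (hnd : ¬ P ∣ r.val) :
    ∃ ρ < P, (mu _ A r + ((A.s * P : ℕ) : ZMod (π.M * P))).val = jS π A (2 * r.val / P) * P + ρ := by
  obtain ⟨hi, ρ₁, ρ₂, h1, h2, h3, h4, h5, h6⟩ := cell hP (ZMod.val_lt r) hnd
  generalize 2 * r.val / P = i at *
  have hr : r = ((r.val : ℕ) : ZMod (π.M * P)) := (ZMod.natCast_zmod_val r).symm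
  have h0 : (π.M : ZMod (π.M * P)) * P = 0 := by
    rw [← Nat.cast_mul]; exact ZMod.natCast_self _
  have key : ∀ a ρ : ℕ, ρ < P → ∀ u : ZMod (π.M * P), ((a * P + ρ : ℕ) : ZMod (π.M * P)) = u →
      u.val = a % π.M * P + ρ := by
    intro a ρ hρ u hu
    rw [← hu, Nat.cast_add, ← cast_mod_mul, ← Nat.cast_add, ZMod.val_cast_of_lt]
    have : a % π.M + 1 ≤ π.M := Nat.mod_lt _ hM
    nlinarith
  have h5' : r = ((i / 2 : ℕ) : ZMod (π.M * P)) * P + ρ₁ := by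
    rw [hr, h5]; push_cast; rfl
  have h6' : r + r = (i : ZMod (π.M * P)) * P + ρ₂ := by
    rw [hr, ← Nat.cast_add, ← two_mul, h6]; push_cast; rfl
  unfold mu jS
  split_ifs
  · refine ⟨ρ₁, h2, key _ _ h2 _ ?_⟩
    rw [h5']; push_cast; ring
  · obtain ⟨k, hk⟩ : ∃ k, 2 * π.M = i + 1 + k := ⟨2 * π.M - 1 - i, by omega⟩
    obtain ⟨ρ₃, h7⟩ : ∃ ρ₃, P = ρ₂ + ρ₃ := ⟨P - ρ₂, by omega⟩
    refine ⟨ρ₃, by omega, key _ _ (by omega) _ ?_⟩
    have e1 : 2 * π.M - 1 - i = k := by omega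
    have e2 : (2 : ZMod (π.M * P)) * π.M = i + 1 + k := by exact_mod_cast congrArg Nat.cast hk
    have e3 : (P : ZMod (π.M * P)) = ρ₂ + ρ₃ := by exact_mod_cast congrArg Nat.cast h7
    rw [e1, h6']; push_cast
    linear_combination (-(P : ZMod (π.M * P))) * e2 + 2 * h0 - e3
  · refine ⟨ρ₂, h4, key _ _ h4 _ ?_⟩
    rw [h6']; push_cast; ring

theorem Has.step {π : Par} {P Q : ℕ} (hπ : π.Ok) (hP : 24 * π.E + 3 < π.M * P)
    (hN : Odd (π.M * P)) (hQ : P = 2 * Q + 1) {D x y z : ℕ} (hz : π.E < z) (A : Act)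
    (v : ℕ → ℝ) (hv : ∀ i < 2 * π.M, v i ≤ 0 ∨
      ∃ d₀ d₁ d₂, Fine π x y A i d₀ d₁ d₂ ∧ Has π P D d₀ d₁ d₂ (v i)) :
    Has π P (D + 1) x y z (Q * ∑ i ∈ range (2 * π.M), v i) := by
  classical
  have : NeZero (π.M * P) := ⟨hN.pos.ne'⟩
  have hPo : Odd P := ⟨Q, hQ⟩
  have hP0 : 0 < P := hPo.pos
  have hv' : ∀ i, ∃ d₀ d₁ d₂, ∃ S : Finset (Fin (D + 1) → ZMod (π.M * P)),
      Peel ((π.M * P) ^ D) S ∧
      (∀ a ∈ S, Fine π x y A i d₀ d₁ d₂ ∧ Role π P D d₀ a ∧ Role π P D d₁ (phi π P D a) ∧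
        Role π P D d₂ (phi π P D (phi π P D a))) ∧ (i < 2 * π.M → v i ≤ S.card) := by
    intro i
    by_cases hi : i < 2 * π.M
    · rcases hv i hi with h | ⟨d₀, d₁, d₂, hf, S, h1, h2, h3⟩
      · exact ⟨0, 0, 0, ∅, Peel.empty (pow_pos hN.pos _), by simp, fun _ => by simpa using h⟩
      · exact ⟨d₀, d₁, d₂, S, h1, fun a ha => ⟨hf, h2 a ha⟩, fun _ => h3⟩
    · exact ⟨0, 0, 0, ∅, Peel.empty (pow_pos hN.pos _), by simp, fun h => absurd h hi⟩
  choose d₀ d₁ d₂ S hS1 hS2 hS3 using hv'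
  let F : ZMod (π.M * P) → Finset (Fin (D + 1) → ZMod (π.M * P)) := fun r =>
    if P ∣ r.val then ∅ else S (2 * r.val / P)
  have hF : ∀ r, ∀ a ∈ F r, ¬ P ∣ r.val ∧ a ∈ S (2 * r.val / P) := by
    intro r a ha
    by_cases h : P ∣ r.val
    · simp [F, h] at ha
    · exact ⟨h, by simpa [F, h] using ha⟩
  have h0 : (π.M : ZMod (π.M * P)) * P = 0 := by
    rw [← Nat.cast_mul]; exact ZMod.natCast_self _
  refine ⟨fib F, ?_, ?_, ?_⟩
  · rw [pow_succ']
    refine Peel.fibre F (fun r => (mu _ A r + ((A.s * P : ℕ) : ZMod (π.M * P))).val)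
      (fun r => ZMod.val_lt _) (fun r => ?_) ?_
    · by_cases h : P ∣ r.val
      · simp only [F, h, if_true]; exact Peel.empty (pow_pos hN.pos _)
      · simp only [F, h, if_false]; exact hS1 _
    · intro r₁ r₂ r₃ a ha b hb c hc e hne e'
      obtain ⟨n1, ha⟩ := hF _ _ ha
      obtain ⟨n2, hb⟩ := hF _ _ hb
      obtain ⟨n3, hc⟩ := hF _ _ hc
      obtain ⟨ρ₁, l1, s1⟩ := sigma_cell hPo hπ.hM A r₁ n1
      obtain ⟨ρ₂, l2, s2⟩ := sigma_cell hPo hπ.hM A r₂ n2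
      obtain ⟨ρ₃, l3, s3⟩ := sigma_cell hPo hπ.hM A r₃ n3
      obtain ⟨f1, a0, a1, -⟩ := hS2 _ _ ha
      obtain ⟨f2, -, b1, b2⟩ := hS2 _ _ hb
      obtain ⟨f3, c0, c1, -⟩ := hS2 _ _ hc
      by_contra hcon
      rw [not_or, not_lt, not_lt] at hcon
      set σ₁ := (mu _ A r₁ + ((A.s * P : ℕ) : ZMod (π.M * P))).val with e1
      set σ₂ := (mu _ A r₂ + ((A.s * P : ℕ) : ZMod (π.M * P))).val with e2
      set σ₃ := (mu _ A r₃ + ((A.s * P : ℕ) : ZMod (π.M * P))).val with e3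
      have hne' : σ₁ ≠ σ₂ := fun h => hne (mu_inj hN A (add_right_cancel (ZMod.val_injective _ h)))
      obtain ⟨k, hk⟩ : ∃ k, σ₂ + σ₂ = σ₁ + σ₃ + k := ⟨σ₂ + σ₂ - (σ₁ + σ₃), by omega⟩
      have hk0 : ((k : ℕ) : ZMod (π.M * P)) = 0 := by
        have h1 := congrArg (Nat.cast : ℕ → ZMod (π.M * P)) hk
        simp only [Nat.cast_add, e1, e2, e3, ZMod.natCast_zmod_val] at h1
        linear_combination -mu_ap A e - h1
      rw [ZMod.natCast_eq_zero_iff] at hk0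
      have hk1 := Nat.le_of_dvd (by omega) hk0
      set j₁ := jS π A (2 * r₁.val / P)
      set j₂ := jS π A (2 * r₂.val / P)
      set j₃ := jS π A (2 * r₃.val / P)
      have hj : (j₁ + j₃ + π.M) * P < (2 * j₂ + 2) * P := by nlinarith
      have hj' : j₁ + j₃ + π.M < 2 * j₂ + 2 := lt_of_mul_lt_mul_right hj (Nat.zero_le _)
      have g2 : j₂ < A.L := f2.hj
      have g1 := f1.ho (by show j₁ + π.M < _; omega)
      have g3 := f3.ho (by show j₃ + π.M < _; omega)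
      have g4 := f2.hm (by show _ ≤ 2 * j₂ + 1; omega)
      have g5 : A.kn * j₁ / 256 + A.kn * j₃ / 256 ≤ A.kn * (2 * j₂ + 1 - π.M) / 256 := by
        refine Nat.div_add_div_le_add_div.trans (Nat.div_le_div_right ?_)
        rw [← mul_add]
        exact Nat.mul_le_mul_left _ (by omega)
      change _ ≤ A.cx + A.kn * j₁ / 256 at g1
      change _ ≤ A.cx + A.kn * j₃ / 256 at g3
      change _ + (2 * A.cx + A.kn * (2 * j₂ + 1 - π.M) / 256) ≤ π.E at g4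
      by_cases ht : A.ty = 1
      · simp only [ht, if_true] at g1 g3 g4
        exact Role.sep hπ hP a1 c1 b2 (by omega) (phi_ap _ _ _ e')
      · simp only [ht, if_false] at g1 g3 g4
        exact Role.sep hπ hP a0 c0 b1 (by omega) e'
  · intro a ha
    simp only [fib, mem_filter, mem_univ, true_and] at ha
    obtain ⟨n1, ha⟩ := hF _ _ ha
    obtain ⟨f1, a0, a1, -⟩ := hS2 _ _ ha
    obtain ⟨hi, ρ₁, ρ₂, h1, h2, h3, h4, h5, h6⟩ := cell hPo (ZMod.val_lt (a 0)) n1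
    generalize 2 * (a 0).val / P = i at *
    have hr : a 0 = (((a 0).val : ℕ) : ZMod (π.M * P)) := (ZMod.natCast_zmod_val _).symm
    have h5' : a 0 = ((i / 2 : ℕ) : ZMod (π.M * P)) * P + ρ₁ := by
      rw [hr, h5]; push_cast; rfl
    have h6' : a 0 + a 0 = (i : ZMod (π.M * P)) * P + ρ₂ := by
      rw [hr, ← Nat.cast_add, ← two_mul, h6]; push_cast; rfl
    refine ⟨?_, ?_, Role.of_lt _ hz⟩
    · rcases f1.hx with h | ⟨h, h'⟩
      · exact Role.of_lt _ h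
      · obtain ⟨k, hk⟩ : ∃ k, π.M = i / 2 + 1 + k := ⟨π.M - 1 - i / 2, by omega⟩
        obtain ⟨ρ₃, h7⟩ : ∃ ρ₃, P = ρ₁ + ρ₃ := ⟨P - ρ₁, by omega⟩
        refine Or.inr ⟨x, le_rfl, tX π x i * P + ρ₃, tX π x i, by omega, by nlinarith, ?_, h,
          a0.mono h'⟩
        have e1 : π.M - 1 - i / 2 = k := by omega
        have e2 : (π.M : ZMod (π.M * P)) = ((i / 2 : ℕ) : ZMod (π.M * P)) + 1 + k := by
          exact_mod_cast congrArg Nat.cast hk
        have e3 : (P : ZMod (π.M * P)) = ρ₁ + ρ₃ := by exact_mod_cast congrArg Nat.cast h7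
        rw [Nat.cast_add, tX, cast_mod_mul, e1, h5']
        push_cast
        linear_combination (-(P : ZMod (π.M * P))) * e2 + h0 - e3
    · rcases f1.hy with h | ⟨h, h'⟩
      · exact Role.of_lt _ h
      · obtain ⟨k, hk⟩ : ∃ k, π.M = π.C + k := ⟨π.M - π.C, by have := hπ.hC; omega⟩
        refine Or.inr ⟨y, le_rfl, tY π y i * P + ρ₂, tY π y i, by omega, by nlinarith, ?_, h, ?_⟩
        · have e1 : π.M - π.C = k := by omega
          have e2 : (π.M : ZMod (π.M * P)) = π.C + k := by exact_mod_cast congrArg Nat.cast hk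
          rw [Nat.cast_add, tY, cast_mod_mul, e1, phi_zero, h6']
          push_cast
          linear_combination (-(P : ZMod (π.M * P))) * e2 + h0
        · rw [phi_tail]; exact a1.mono h'
  · rw [card_fib]
    let f : ℕ × ℕ → ℕ := fun x => x.1 * P / 2 + 1 + x.2
    have hf : ∀ x ∈ range (2 * π.M) ×ˢ range Q, f x < π.M * P ∧ 2 * f x / P = x.1 ∧ ¬ P ∣ f x := by
      intro x hx
      rw [mem_product, mem_range, mem_range] at hx
      have h1 : x.1 * P < 2 * f x := by simp only [f]; omega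
      have h2 : 2 * f x < (x.1 + 1) * P := by simp only [f, add_mul]; omega
      have h3 : (x.1 + 1) * P ≤ 2 * π.M * P := Nat.mul_le_mul_right _ hx.1
      refine ⟨by nlinarith, Nat.div_eq_of_lt_le h1.le h2, ?_⟩
      rintro ⟨k, hk⟩
      rw [hk] at h1 h2
      have h4 : x.1 < 2 * k := lt_of_mul_lt_mul_right (a := P) (by nlinarith) (Nat.zero_le _)
      have h5 : 2 * k < x.1 + 1 := lt_of_mul_lt_mul_right (a := P) (by nlinarith) (Nat.zero_le _)
      omega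
    have hinj : Set.InjOn (fun x => ((f x : ℕ) : ZMod (π.M * P)))
        (range (2 * π.M) ×ˢ range Q : Finset (ℕ × ℕ)) := by
      intro a ha b hb hab
      have h1 := congrArg ZMod.val hab
      simp only [ZMod.val_cast_of_lt (hf a ha).1, ZMod.val_cast_of_lt (hf b hb).1] at h1
      have h2 : a.1 = b.1 := by rw [← (hf a ha).2.1, ← (hf b hb).2.1, h1]
      refine Prod.ext h2 ?_
      simp only [f, h2] at h1
      omega
    calc (Q : ℝ) * ∑ i ∈ range (2 * π.M), v i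
        = ∑ x ∈ range (2 * π.M) ×ˢ range Q, v x.1 := by
          rw [sum_product, mul_sum]; simp
      _ ≤ ∑ x ∈ range (2 * π.M) ×ˢ range Q, ((F (f x : ℕ)).card : ℝ) := by
          refine sum_le_sum fun x hx => ?_
          obtain ⟨h1, h2, h3⟩ := hf x hx
          simp only [F, ZMod.val_cast_of_lt h1, h2, h3, if_false]
          exact hS3 _ (mem_range.1 (mem_product.1 hx).1)
      _ = ∑ r ∈ (range (2 * π.M) ×ˢ range Q).image (fun x => ((f x : ℕ) : ZMod (π.M * P))),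
            ((F r).card : ℝ) := by rw [sum_image hinj]
      _ ≤ ∑ r, ((F r).card : ℝ) :=
          sum_le_sum_of_subset_of_nonneg (subset_univ _) fun _ _ _ => by positivity
      _ = _ := by push_cast; rfl

end Pool.Agent.P.MP_b30443_co
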